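import Pool.Agent.helper14.EXG.GGA
import Pool.Agent.helper20.EXG.GF2
import Pool.Agent.helper25.EXG.GFN
import Pool.Agent.helper29.EXG.GYB
import Pool.Agent.helper41.EXG.GYC
import Pool.Agent.helper43.EXG.GXC
import Pool.Agent.helper44.EXG.GGN
import Pool.Agent.helper6.EXG.GF0
import Pool.Agent.helper68.EXG.GCJ
import Pool.Agent.helper75.EXG.GSN
import Pool.Agent.helper79.EXG.GNR
import Pool.Agent.helper92.EXG.GVA

/-!
# Project EXG (MP_561ff4_al): all rows put together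
-/

set_option autoImplicit false

namespace Pool.Agent.EXC.A5

theorem g_GXC : Pool.Agent.EXC.GXC_stmt := Pool.Agent.EXC.GXC
theorem g_GCJ : Pool.Agent.EXC.GCJ_stmt := Pool.Agent.EXC.GCJ
theorem g_GNR : Pool.Agent.EXC.GNR_stmt := Pool.Agent.EXC.GNR
theorem g_GGN : Pool.Agent.EXC.GGN_stmt := Pool.Agent.EXC.GGN g_GXC g_GCJ g_GNR
theorem g_GSN : Pool.Agent.EXC.GSN_stmt := Pool.Agent.EXC.GSN g_GXC
theorem g_GF0 : Pool.Agent.EXC.GF0_stmt := Pool.Agent.EXC.GF0 g_GGN g_GSN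
theorem g_GVA : Pool.Agent.EXC.GVA_stmt := Pool.Agent.EXC.GVA g_GXC
theorem g_GYB : Pool.Agent.EXC.GYB_stmt := Pool.Agent.EXC.GYB g_GXC g_GVA
theorem g_GYC : Pool.Agent.EXC.GYC_stmt := Pool.Agent.EXC.GYC g_GXC g_GVA g_GYB
theorem g_GF2 : Pool.Agent.EXC.GF2_stmt := Pool.Agent.EXC.GF2 g_GGN g_GSN g_GYC
theorem g_GGA : Pool.Agent.EXC.GGA_stmt := Pool.Agent.EXC.GGA
theorem g_GFN : Pool.Agent.EXC.GFN_stmt := Pool.Agent.EXC.GFN g_GF0 g_GF2 g_GGA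

end Pool.Agent.EXC.A5
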