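import Pool.Agent.helper17.EXC.Facts
import Pool.Agent.helper32.EXC.Spec11
import Pool.Agent.helper9.EXC.T11XGS
import Pool.Agent.helper30.EXC.T11CNJ
import Pool.Agent.helper19.EXC.T11TPR
import Pool.Agent.helper8.EXC.T11YCL
import Pool.Agent.helper64.EXC.T11GR2

/-!
# Project EXG (MP_561ff4_al): ten conjugates of `x` generate `E₆(q)`, `E₇(q)`, `E₈(q)`. Definitions
-/

set_option autoImplicit false

open Finset

namespace Pool.Agent.EXC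

theorem k_XGS : T11XGS_stmt := T11XGS f_EXF f_XAU
theorem k_CNJ : T11CNJ_stmt := T11CNJ f_THT f_NBR f_WPG f_RHO f_LIF f_EXF
theorem k_TPR : T11TPR_stmt := T11TPR f_NBR f_WPG f_RFL
theorem k_YCL : T11YCL_stmt := T11YCL f_NBR f_GEO f_EXF f_TPF f_TSY f_XAU
theorem k_GR2 : T11GR2_stmt := T11GR2

variable {n : ℕ} (C : Matrix (Fin n) (Fin n) ℤ)

/-- the product of the root elements `x_α(1)` (entries `(α, true)`) and `x_α(t)` (entries `(α, false)`) -/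
noncomputable def prd [IsC C] {F : Type} [Field F] (t : F) (l : List ((Fin n → ℤ) × Bool)) : Lm C F ≃ₗ[F] Lm C F :=
  (l.map fun p => XG C p.1 (if p.2 then (1 : F) else t)).prod

/-- the closure of a list of products: roots `r` such that `x_r(1)` is in every group which contains the products (and, for `a ∈ A`, an element
`x_a(1) x_{-a}(κ)`). Everything is determined by the inner products of the roots, no signs are needed. -/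
inductive Cgr (PL : List (List ((Fin n → ℤ) × Bool))) (A : List (Fin n → ℤ)) : (Fin n → ℤ) → Prop
  | com (P₁ P₂ Q₁ Q₂ : List ((Fin n → ℤ) × Bool)) (u v w : Fin n → ℤ) : (P₁ ++ (u, true) :: P₂) ∈ PL → (Q₁ ++ (v, true) :: Q₂) ∈ PL →
      (ip C u v = -1 ∧ w = u + v ∧ (∀ p ∈ P₁ ++ P₂, 0 ≤ ip C p.1 v ∧ 0 ≤ ip C p.1 w ∧ ∀ q ∈ Q₁ ++ Q₂, 0 ≤ ip C p.1 q.1) ∧
        ∀ q ∈ Q₁ ++ Q₂, 0 ≤ ip C u q.1 ∧ 0 ≤ ip C q.1 w) → Cgr PL A w
  | act (r : Fin n → ℤ) (Q₁ Q₂ : List ((Fin n → ℤ) × Bool)) (v w : Fin n → ℤ) : Cgr PL A r → (Q₁ ++ (v, true) :: Q₂) ∈ PL →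
      (ip C r v = -1 ∧ w = r + v ∧ ∀ q ∈ Q₁ ++ Q₂, 0 ≤ ip C r q.1 ∧ 0 ≤ ip C q.1 w) → Cgr PL A w
  | add (r s w : Fin n → ℤ) : Cgr PL A r → Cgr PL A s → (ip C r s = -1 ∧ w = r + s) → Cgr PL A w
  | one (P₁ P₂ : List ((Fin n → ℤ) × Bool)) (u : Fin n → ℤ) : (P₁ ++ (u, true) :: P₂) ∈ PL → (∀ p ∈ P₁ ++ P₂, p.2 = true) →
      (∀ p ∈ P₁ ++ P₂, Cgr PL A p.1) → Cgr PL A u
  | yy (r a w : Fin n → ℤ) : Cgr PL A r → (a ∈ A ∧ ip C a r = -1 ∧ w = a + r) → Cgr PL A w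

/-- certificate for the types `m = 0` and `m = -1`: five products `x_u x_v` with `(u, v) = m` (the last one `x_u(1) x_v(t)`) whose closure
contains all `± α_i` -/
def Ct0 (m : ℤ) : Prop := ∃ (l : List ((Fin n → ℤ) × (Fin n → ℤ))) (u v : Fin n → ℤ), l.length = 4 ∧
  (∀ p ∈ l, ip C p.1 p.1 = 2 ∧ ip C p.2 p.2 = 2 ∧ ip C p.1 p.2 = m) ∧ ip C u u = 2 ∧ ip C v v = 2 ∧ ip C u v = m ∧
  ∀ i, Cgr C ((l.map fun p => [(p.1, true), (p.2, true)]) ++ [[(u, true), (v, false)]]) [] (sr i) ∧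
    Cgr C ((l.map fun p => [(p.1, true), (p.2, true)]) ++ [[(u, true), (v, false)]]) [] (-sr i)

/-- the products for the type `-2`: `[f, c]` or `[f, c, g]` with `(a, f) = 1`, `(a, c) = -1`, `(f, c) = -1`, and `(a, g) = ± 1`, the products of `g`
(or `g + a`) of degree `-1` with `c` and `f - a` are `1` -/
def OkP (a : Fin n → ℤ) (l : List ((Fin n → ℤ) × Bool)) : Prop := ∃ (f c : Fin n → ℤ) (b₁ b₂ : Bool) (G : List ((Fin n → ℤ) × Bool)),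
  l = (f, b₁) :: (c, b₂) :: G ∧ ip C f f = 2 ∧ ip C c c = 2 ∧ ip C a f = 1 ∧ ip C a c = -1 ∧ ip C f c = -1 ∧
  (G = [] ∨ ∃ (g : Fin n → ℤ) (b₃ : Bool), G = [(g, b₃)] ∧ ip C g g = 2 ∧ ((ip C a g = -1 ∧ ip C g c = 1 ∧ ip C g (f - a) = 1) ∨
    (ip C a g = 1 ∧ ip C (g - a) c = 1 ∧ ip C (g - a) (f - a) = 1)))

/-- certificate for the type `-2`: four products -/
def Ct2 (a : Fin n → ℤ) : Prop := ∃ PL : List (List ((Fin n → ℤ) × Bool)), PL.length = 4 ∧ (∀ l ∈ PL, OkP C a l) ∧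
  (∃ (P₁ P₂ : List ((Fin n → ℤ) × Bool)) (v : Fin n → ℤ), (P₁ ++ (v, false) :: P₂) ∈ PL ∧ ip C v v = 2 ∧ ∀ p ∈ P₁ ++ P₂, p.2 = true ∧ ip C p.1 p.1 = 2) ∧
  ∀ i, Cgr C PL [a] (sr i) ∧ Cgr C PL [a] (-sr i)

end Pool.Agent.EXC
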