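import Pool.Agent.helper16.EXG.Defs

/-!
# Project EXG (MP_561ff4_al): the certificate for `E₆`, type `0` (computer generated)
-/

set_option autoImplicit false

open Finset

namespace Pool.Agent.EXC

def GK60l : List ((Fin 6 → ℤ) × (Fin 6 → ℤ)) := [(![0, 1, 0, 0, 0, 0], ![1, 0, 0, 0, 0, 0]),
  (![0, 0, 0, 0, 1, 1], ![0, 0, 0, 1, 1, 0]),
  (![0, -1, 0, -1, -1, -1], ![0, 1, 1, 1, 1, 0]),
  (![-1, -1, -2, -2, -1, 0], ![0, 0, 0, 0, -1, 0])]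
def GK60u : Fin 6 → ℤ := ![-1, -1, -1, -1, -1, -1]
def GK60v : Fin 6 → ℤ := ![0, 1, 1, 2, 2, 1]
def GK60L : List (List ((Fin 6 → ℤ) × Bool)) := (GK60l.map fun p => [(p.1, true), (p.2, true)]) ++ [[(GK60u, true), (GK60v, false)]]

theorem GK60_0 : Cgr CartanMatrix.E₆ GK60L [] ![0, 1, 0, 1, 1, 0] := Cgr.com [] [(![1, 0, 0, 0, 0, 0], true)] [(![0, 0, 0, 0, 1, 1], true)] [] ![0, 1, 0, 0, 0, 0] ![0, 0, 0, 1, 1, 0] _
  (by decide +kernel) (by decide +kernel) (by decide +kernel)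
theorem GK60_1 : Cgr CartanMatrix.E₆ GK60L [] ![0, -1, 0, -1, 0, 0] := Cgr.com [] [(![0, 0, 0, 1, 1, 0], true)] [] [(![0, 1, 1, 1, 1, 0], true)] ![0, 0, 0, 0, 1, 1] ![0, -1, 0, -1, -1, -1] _
  (by decide +kernel) (by decide +kernel) (by decide +kernel)
theorem GK60_2 : Cgr CartanMatrix.E₆ GK60L [] ![-1, -1, -1, -1, 0, 0] := Cgr.com [] [(![0, 0, 0, 1, 1, 0], true)] [] [(![0, 1, 1, 2, 2, 1], false)] ![0, 0, 0, 0, 1, 1] ![-1, -1, -1, -1, -1, -1] _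
  (by decide +kernel) (by decide +kernel) (by decide +kernel)
theorem GK60_3 : Cgr CartanMatrix.E₆ GK60L [] ![0, 0, 0, 0, 1, 0] := Cgr.add _ _ _ GK60_0 GK60_1 (by decide +kernel)
theorem GK60_4 : Cgr CartanMatrix.E₆ GK60L [] ![0, 0, 0, 0, 0, -1] := Cgr.act _ [] [(![0, 1, 1, 1, 1, 0], true)] ![0, -1, 0, -1, -1, -1] _ GK60_0 (by decide +kernel) (by decide +kernel)
theorem GK60_5 : Cgr CartanMatrix.E₆ GK60L [] ![0, 1, 0, 1, 0, 0] := Cgr.act _ [(![-1, -1, -2, -2, -1, 0], true)] [] ![0, 0, 0, 0, -1, 0] _ GK60_0 (by decide +kernel) (by decide +kernel)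
theorem GK60_6 : Cgr CartanMatrix.E₆ GK60L [] ![0, 0, 0, -1, 0, 0] := Cgr.act _ [] [(![1, 0, 0, 0, 0, 0], true)] ![0, 1, 0, 0, 0, 0] _ GK60_1 (by decide +kernel) (by decide +kernel)
theorem GK60_7 : Cgr CartanMatrix.E₆ GK60L [] ![0, -1, 0, -1, -1, 0] := Cgr.act _ [(![-1, -1, -2, -2, -1, 0], true)] [] ![0, 0, 0, 0, -1, 0] _ GK60_1 (by decide +kernel) (by decide +kernel)
theorem GK60_8 : Cgr CartanMatrix.E₆ GK60L [] ![-1, 0, -1, 0, 0, 0] := Cgr.add _ _ _ GK60_2 GK60_5 (by decide +kernel)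
theorem GK60_9 : Cgr CartanMatrix.E₆ GK60L [] ![0, 1, 0, 0, 0, 0] := Cgr.add _ _ _ GK60_5 GK60_6 (by decide +kernel)
theorem GK60_10 : Cgr CartanMatrix.E₆ GK60L [] ![0, 0, 0, 0, -1, 0] := Cgr.add _ _ _ GK60_5 GK60_7 (by decide +kernel)
theorem GK60_11 : Cgr CartanMatrix.E₆ GK60L [] ![0, 1, 0, 1, 1, 1] := Cgr.act _ [] [(![0, 0, 0, 1, 1, 0], true)] ![0, 0, 0, 0, 1, 1] _ GK60_5 (by decide +kernel) (by decide +kernel)
theorem GK60_12 : Cgr CartanMatrix.E₆ GK60L [] ![0, 0, 0, 0, 0, 1] := Cgr.add _ _ _ GK60_7 GK60_11 (by decide +kernel)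
theorem GK60_13 : Cgr CartanMatrix.E₆ GK60L [] ![0, -1, 0, 0, 0, 0] := Cgr.act _ [(![0, 0, 0, 0, 1, 1], true)] [] ![0, 0, 0, 1, 1, 0] _ GK60_7 (by decide +kernel) (by decide +kernel)
theorem GK60_14 : Cgr CartanMatrix.E₆ GK60L [] ![0, 0, 1, 0, 0, 0] := Cgr.act _ [(![0, -1, 0, -1, -1, -1], true)] [] ![0, 1, 1, 1, 1, 0] _ GK60_7 (by decide +kernel) (by decide +kernel)
theorem GK60_15 : Cgr CartanMatrix.E₆ GK60L [] ![-1, 0, 0, 0, 0, 0] := Cgr.add _ _ _ GK60_8 GK60_14 (by decide +kernel)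
theorem GK60_16 : Cgr CartanMatrix.E₆ GK60L [] ![0, 0, -1, 0, 0, 0] := Cgr.act _ [(![0, 1, 0, 0, 0, 0], true)] [] ![1, 0, 0, 0, 0, 0] _ GK60_8 (by decide +kernel) (by decide +kernel)
theorem GK60_17 : Cgr CartanMatrix.E₆ GK60L [] ![1, 0, 0, 0, 0, 0] := Cgr.one [(![0, 1, 0, 0, 0, 0], true)] [] ![1, 0, 0, 0, 0, 0] (by decide +kernel) (by decide +kernel)
  (show ∀ p ∈ [(![0, 1, 0, 0, 0, 0], true)], Cgr CartanMatrix.E₆ GK60L [] p.1 from List.forall_mem_cons.2 ⟨GK60_9, List.forall_mem_nil _⟩)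
theorem GK60_18 : Cgr CartanMatrix.E₆ GK60L [] ![0, 0, 0, 1, 0, 0] := Cgr.add _ _ _ GK60_13 GK60_5 (by decide +kernel)

theorem GK60_all (i : Fin 6) : Cgr CartanMatrix.E₆ GK60L [] (sr i) ∧ Cgr CartanMatrix.E₆ GK60L [] (-sr i) := by
  match i with
  | 0 => exact ⟨by rw [show (sr 0 : Fin 6 → ℤ) = ![1, 0, 0, 0, 0, 0] by decide +kernel]; exact GK60_17,
      by rw [show (-sr 0 : Fin 6 → ℤ) = ![-1, 0, 0, 0, 0, 0] by decide +kernel]; exact GK60_15⟩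
  | 1 => exact ⟨by rw [show (sr 1 : Fin 6 → ℤ) = ![0, 1, 0, 0, 0, 0] by decide +kernel]; exact GK60_9,
      by rw [show (-sr 1 : Fin 6 → ℤ) = ![0, -1, 0, 0, 0, 0] by decide +kernel]; exact GK60_13⟩
  | 2 => exact ⟨by rw [show (sr 2 : Fin 6 → ℤ) = ![0, 0, 1, 0, 0, 0] by decide +kernel]; exact GK60_14,
      by rw [show (-sr 2 : Fin 6 → ℤ) = ![0, 0, -1, 0, 0, 0] by decide +kernel]; exact GK60_16⟩
  | 3 => exact ⟨by rw [show (sr 3 : Fin 6 → ℤ) = ![0, 0, 0, 1, 0, 0] by decide +kernel]; exact GK60_18,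
      by rw [show (-sr 3 : Fin 6 → ℤ) = ![0, 0, 0, -1, 0, 0] by decide +kernel]; exact GK60_6⟩
  | 4 => exact ⟨by rw [show (sr 4 : Fin 6 → ℤ) = ![0, 0, 0, 0, 1, 0] by decide +kernel]; exact GK60_3,
      by rw [show (-sr 4 : Fin 6 → ℤ) = ![0, 0, 0, 0, -1, 0] by decide +kernel]; exact GK60_10⟩
  | 5 => exact ⟨by rw [show (sr 5 : Fin 6 → ℤ) = ![0, 0, 0, 0, 0, 1] by decide +kernel]; exact GK60_12,
      by rw [show (-sr 5 : Fin 6 → ℤ) = ![0, 0, 0, 0, 0, -1] by decide +kernel]; exact GK60_4⟩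

theorem GK60 : Ct0 CartanMatrix.E₆ (0) := ⟨GK60l, GK60u, GK60v, rfl, by decide +kernel, by decide +kernel, by decide +kernel, by decide +kernel, GK60_all⟩

end Pool.Agent.EXC
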