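import Pool.Agent.helper16.EXG.Defs

/-!
# Project EXG (MP_561ff4_al): the certificate for `E₆`, type `-1` (computer generated)
-/

set_option autoImplicit false

open Finset

namespace Pool.Agent.EXC

def GK61l : List ((Fin 6 → ℤ) × (Fin 6 → ℤ)) := [(![1, 1, 2, 2, 1, 0], ![-1, -1, -1, -2, -1, 0]),
  (![1, 0, 1, 1, 1, 0], ![-1, 0, -1, -1, -1, -1]),
  (![0, 1, 1, 2, 1, 0], ![0, 0, 0, -1, -1, 0]),
  (![0, 0, 1, 1, 1, 0], ![0, -1, -1, -1, -1, 0])]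
def GK61u : Fin 6 → ℤ := ![1, 1, 1, 2, 2, 1]
def GK61v : Fin 6 → ℤ := ![-1, -1, -1, -2, -1, -1]
def GK61L : List (List ((Fin 6 → ℤ) × Bool)) := (GK61l.map fun p => [(p.1, true), (p.2, true)]) ++ [[(GK61u, true), (GK61v, false)]]

theorem GK61_0 : Cgr CartanMatrix.E₆ GK61L [] ![-1, 0, 0, 0, 0, 0] := Cgr.com [(![1, 1, 2, 2, 1, 0], true)] [] [] [(![0, 0, 0, -1, -1, 0], true)] ![-1, -1, -1, -2, -1, 0] ![0, 1, 1, 2, 1, 0] _
  (by decide +kernel) (by decide +kernel) (by decide +kernel)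
theorem GK61_1 : Cgr CartanMatrix.E₆ GK61L [] ![0, 1, 0, 1, 1, 0] := Cgr.com [(![1, 0, 1, 1, 1, 0], true)] [] [] [(![-1, -1, -1, -2, -1, -1], false)] ![-1, 0, -1, -1, -1, -1] ![1, 1, 1, 2, 2, 1] _
  (by decide +kernel) (by decide +kernel) (by decide +kernel)
theorem GK61_2 : Cgr CartanMatrix.E₆ GK61L [] ![0, 0, 1, 1, 1, 0] := Cgr.act _ [] [(![-1, 0, -1, -1, -1, -1], true)] ![1, 0, 1, 1, 1, 0] _ GK61_0 (by decide +kernel) (by decide +kernel)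
theorem GK61_3 : Cgr CartanMatrix.E₆ GK61L [] ![-1, -1, -1, -1, -1, 0] := Cgr.act _ [(![0, 0, 1, 1, 1, 0], true)] [] ![0, -1, -1, -1, -1, 0] _ GK61_0 (by decide +kernel) (by decide +kernel)
theorem GK61_4 : Cgr CartanMatrix.E₆ GK61L [] ![0, 1, 1, 2, 2, 1] := Cgr.act _ [] [(![-1, -1, -1, -2, -1, -1], false)] ![1, 1, 1, 2, 2, 1] _ GK61_0 (by decide +kernel) (by decide +kernel)
theorem GK61_5 : Cgr CartanMatrix.E₆ GK61L [] ![0, 1, 0, 0, 0, 0] := Cgr.act _ [(![0, 1, 1, 2, 1, 0], true)] [] ![0, 0, 0, -1, -1, 0] _ GK61_1 (by decide +kernel) (by decide +kernel)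
theorem GK61_6 : Cgr CartanMatrix.E₆ GK61L [] ![0, 0, 1, 0, 0, 0] := Cgr.act _ [(![0, 1, 1, 2, 1, 0], true)] [] ![0, 0, 0, -1, -1, 0] _ GK61_2 (by decide +kernel) (by decide +kernel)
theorem GK61_7 : Cgr CartanMatrix.E₆ GK61L [] ![0, -1, 0, 0, 0, 0] := Cgr.act _ [(![0, 0, 1, 1, 1, 0], true)] [] ![0, -1, -1, -1, -1, 0] _ GK61_2 (by decide +kernel) (by decide +kernel)
theorem GK61_8 : Cgr CartanMatrix.E₆ GK61L [] ![0, -1, -1, -1, -1, 0] := Cgr.one [(![0, 0, 1, 1, 1, 0], true)] [] ![0, -1, -1, -1, -1, 0] (by decide +kernel) (by decide +kernel)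
  (show ∀ p ∈ [(![0, 0, 1, 1, 1, 0], true)], Cgr CartanMatrix.E₆ GK61L [] p.1 from List.forall_mem_cons.2 ⟨GK61_2, List.forall_mem_nil _⟩)
theorem GK61_9 : Cgr CartanMatrix.E₆ GK61L [] ![0, 0, 1, 1, 0, 0] := Cgr.act _ [] [(![-1, -1, -1, -2, -1, 0], true)] ![1, 1, 2, 2, 1, 0] _ GK61_3 (by decide +kernel) (by decide +kernel)
theorem GK61_10 : Cgr CartanMatrix.E₆ GK61L [] ![0, 0, 0, 1, 1, 1] := Cgr.add _ _ _ GK61_4 GK61_8 (by decide +kernel)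
theorem GK61_11 : Cgr CartanMatrix.E₆ GK61L [] ![0, 1, 1, 1, 1, 1] := Cgr.act _ [(![0, 1, 1, 2, 1, 0], true)] [] ![0, 0, 0, -1, -1, 0] _ GK61_4 (by decide +kernel) (by decide +kernel)
theorem GK61_12 : Cgr CartanMatrix.E₆ GK61L [] ![0, 1, 1, 1, 0, 0] := Cgr.add _ _ _ GK61_5 GK61_9 (by decide +kernel)
theorem GK61_13 : Cgr CartanMatrix.E₆ GK61L [] ![1, 1, 1, 1, 1, 0] := Cgr.act _ [] [(![-1, 0, -1, -1, -1, -1], true)] ![1, 0, 1, 1, 1, 0] _ GK61_5 (by decide +kernel) (by decide +kernel)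
theorem GK61_14 : Cgr CartanMatrix.E₆ GK61L [] ![-1, -1, -1, -1, -1, -1] := Cgr.act _ [(![1, 0, 1, 1, 1, 0], true)] [] ![-1, 0, -1, -1, -1, -1] _ GK61_7 (by decide +kernel) (by decide +kernel)
theorem GK61_15 : Cgr CartanMatrix.E₆ GK61L [] ![0, 0, -1, 0, 0, 0] := Cgr.add _ _ _ GK61_8 GK61_1 (by decide +kernel)
theorem GK61_16 : Cgr CartanMatrix.E₆ GK61L [] ![0, 0, 0, 0, 0, 1] := Cgr.add _ _ _ GK61_8 GK61_11 (by decide +kernel)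
theorem GK61_17 : Cgr CartanMatrix.E₆ GK61L [] ![0, 0, 0, 0, -1, 0] := Cgr.add _ _ _ GK61_8 GK61_12 (by decide +kernel)
theorem GK61_18 : Cgr CartanMatrix.E₆ GK61L [] ![1, 0, 0, 0, 0, 0] := Cgr.add _ _ _ GK61_8 GK61_13 (by decide +kernel)
theorem GK61_19 : Cgr CartanMatrix.E₆ GK61L [] ![0, 0, 0, 1, 0, 0] := Cgr.add _ _ _ GK61_9 GK61_15 (by decide +kernel)
theorem GK61_20 : Cgr CartanMatrix.E₆ GK61L [] ![1, 1, 1, 2, 2, 1] := Cgr.add _ _ _ GK61_10 GK61_13 (by decide +kernel)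
theorem GK61_21 : Cgr CartanMatrix.E₆ GK61L [] ![0, 0, 0, 0, 0, -1] := Cgr.add _ _ _ GK61_13 GK61_14 (by decide +kernel)
theorem GK61_22 : Cgr CartanMatrix.E₆ GK61L [] ![0, 0, 0, -1, 0, 0] := Cgr.act _ [(![1, 1, 2, 2, 1, 0], true)] [] ![-1, -1, -1, -2, -1, 0] _ GK61_13 (by decide +kernel) (by decide +kernel)
theorem GK61_23 : Cgr CartanMatrix.E₆ GK61L [] ![-1, -1, -1, -2, -1, -1] := Cgr.add _ _ _ GK61_14 GK61_22 (by decide +kernel)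
theorem GK61_24 : Cgr CartanMatrix.E₆ GK61L [] ![0, 0, 0, 0, 1, 0] := Cgr.add _ _ _ GK61_20 GK61_23 (by decide +kernel)

theorem GK61_all (i : Fin 6) : Cgr CartanMatrix.E₆ GK61L [] (sr i) ∧ Cgr CartanMatrix.E₆ GK61L [] (-sr i) := by
  match i with
  | 0 => exact ⟨by rw [show (sr 0 : Fin 6 → ℤ) = ![1, 0, 0, 0, 0, 0] by decide +kernel]; exact GK61_18,
      by rw [show (-sr 0 : Fin 6 → ℤ) = ![-1, 0, 0, 0, 0, 0] by decide +kernel]; exact GK61_0⟩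
  | 1 => exact ⟨by rw [show (sr 1 : Fin 6 → ℤ) = ![0, 1, 0, 0, 0, 0] by decide +kernel]; exact GK61_5,
      by rw [show (-sr 1 : Fin 6 → ℤ) = ![0, -1, 0, 0, 0, 0] by decide +kernel]; exact GK61_7⟩
  | 2 => exact ⟨by rw [show (sr 2 : Fin 6 → ℤ) = ![0, 0, 1, 0, 0, 0] by decide +kernel]; exact GK61_6,
      by rw [show (-sr 2 : Fin 6 → ℤ) = ![0, 0, -1, 0, 0, 0] by decide +kernel]; exact GK61_15⟩
  | 3 => exact ⟨by rw [show (sr 3 : Fin 6 → ℤ) = ![0, 0, 0, 1, 0, 0] by decide +kernel]; exact GK61_19,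
      by rw [show (-sr 3 : Fin 6 → ℤ) = ![0, 0, 0, -1, 0, 0] by decide +kernel]; exact GK61_22⟩
  | 4 => exact ⟨by rw [show (sr 4 : Fin 6 → ℤ) = ![0, 0, 0, 0, 1, 0] by decide +kernel]; exact GK61_24,
      by rw [show (-sr 4 : Fin 6 → ℤ) = ![0, 0, 0, 0, -1, 0] by decide +kernel]; exact GK61_17⟩
  | 5 => exact ⟨by rw [show (sr 5 : Fin 6 → ℤ) = ![0, 0, 0, 0, 0, 1] by decide +kernel]; exact GK61_16,
      by rw [show (-sr 5 : Fin 6 → ℤ) = ![0, 0, 0, 0, 0, -1] by decide +kernel]; exact GK61_21⟩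

theorem GK61 : Ct0 CartanMatrix.E₆ (-1) := ⟨GK61l, GK61u, GK61v, rfl, by decide +kernel, by decide +kernel, by decide +kernel, by decide +kernel, GK61_all⟩

end Pool.Agent.EXC
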