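import Pool.Agent.helper16.EXG.Defs

/-!
# Project EXG (MP_561ff4_al): the certificate for `E₆`, type `-2` (computer generated)
-/

set_option autoImplicit false

open Finset

namespace Pool.Agent.EXC

def GK62L : List (List ((Fin 6 → ℤ) × Bool)) := [[(![0, 1, 0, 0, 0, 0], true), (![-1, -1, -1, -1, 0, 0], true)],
  [(![0, 1, 1, 1, 1, 0], true), (![0, -1, -1, -2, -1, 0], true)],
  [(![0, 1, 0, 1, 0, 0], true), (![0, -1, -1, -1, 0, 0], true), (![0, -1, -1, -1, -1, -1], true)],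
  [(![1, 1, 2, 2, 1, 1], true), (![-1, -1, -2, -3, -2, -1], false), (![0, -1, -1, -2, -2, -1], true)]]
def GK62a : Fin 6 → ℤ := ![1, 2, 2, 3, 2, 1]

theorem GK62_0 : Cgr CartanMatrix.E₆ GK62L [GK62a] ![0, 0, 0, -1, -1, -1] := Cgr.com [] [(![0, -1, -1, -2, -1, 0], true)] [(![1, 1, 2, 2, 1, 1], true), (![-1, -1, -2, -3, -2, -1], false)] [] ![0, 1, 1, 1, 1, 0] ![0, -1, -1, -2, -2, -1] _
  (by decide +kernel) (by decide +kernel) (by decide +kernel)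
theorem GK62_1 : Cgr CartanMatrix.E₆ GK62L [GK62a] ![-1, -1, -1, -2, -1, -1] := Cgr.act _ [(![0, 1, 0, 0, 0, 0], true)] [] ![-1, -1, -1, -1, 0, 0] _ GK62_0 (by decide +kernel) (by decide +kernel)
theorem GK62_2 : Cgr CartanMatrix.E₆ GK62L [GK62a] ![0, 1, 1, 1, 1, 0] := Cgr.yy _ GK62a _ GK62_1 (by decide +kernel)
theorem GK62_3 : Cgr CartanMatrix.E₆ GK62L [GK62a] ![0, 0, 1, 0, 0, 0] := Cgr.act _ [] [(![-1, -1, -2, -3, -2, -1], false), (![0, -1, -1, -2, -2, -1], true)] ![1, 1, 2, 2, 1, 1] _ GK62_1 (by decide +kernel) (by decide +kernel)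
theorem GK62_4 : Cgr CartanMatrix.E₆ GK62L [GK62a] ![0, 0, 0, -1, 0, 0] := Cgr.act _ [(![0, 1, 1, 1, 1, 0], true)] [] ![0, -1, -1, -2, -1, 0] _ GK62_2 (by decide +kernel) (by decide +kernel)
theorem GK62_5 : Cgr CartanMatrix.E₆ GK62L [GK62a] ![0, -1, -1, -2, -1, 0] := Cgr.one [(![0, 1, 1, 1, 1, 0], true)] [] ![0, -1, -1, -2, -1, 0] (by decide +kernel) (by decide +kernel)
  (show ∀ p ∈ [(![0, 1, 1, 1, 1, 0], true)], Cgr CartanMatrix.E₆ GK62L [GK62a] p.1 from List.forall_mem_cons.2 ⟨GK62_2, List.forall_mem_nil _⟩)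
theorem GK62_6 : Cgr CartanMatrix.E₆ GK62L [GK62a] ![1, 1, 1, 1, 1, 1] := Cgr.yy _ GK62a _ GK62_5 (by decide +kernel)
theorem GK62_7 : Cgr CartanMatrix.E₆ GK62L [GK62a] ![0, 0, -1, -1, -1, 0] := Cgr.act _ [] [(![0, -1, -1, -1, 0, 0], true), (![0, -1, -1, -1, -1, -1], true)] ![0, 1, 0, 1, 0, 0] _ GK62_5 (by decide +kernel) (by decide +kernel)
theorem GK62_8 : Cgr CartanMatrix.E₆ GK62L [GK62a] ![1, 0, 0, 0, 0, 0] := Cgr.act _ [(![0, 1, 0, 1, 0, 0], true), (![0, -1, -1, -1, 0, 0], true)] [] ![0, -1, -1, -1, -1, -1] _ GK62_6 (by decide +kernel) (by decide +kernel)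
theorem GK62_9 : Cgr CartanMatrix.E₆ GK62L [GK62a] ![0, 1, 0, 0, 0, 0] := Cgr.add _ _ _ GK62_7 GK62_2 (by decide +kernel)
theorem GK62_10 : Cgr CartanMatrix.E₆ GK62L [GK62a] ![-1, -1, -2, -2, -1, 0] := Cgr.act _ [(![0, 1, 0, 0, 0, 0], true)] [] ![-1, -1, -1, -1, 0, 0] _ GK62_7 (by decide +kernel) (by decide +kernel)
theorem GK62_11 : Cgr CartanMatrix.E₆ GK62L [GK62a] ![0, -1, -1, -2, -1, -1] := Cgr.add _ _ _ GK62_8 GK62_1 (by decide +kernel)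
theorem GK62_12 : Cgr CartanMatrix.E₆ GK62L [GK62a] ![1, 1, 1, 1, 1, 0] := Cgr.add _ _ _ GK62_8 GK62_2 (by decide +kernel)
theorem GK62_13 : Cgr CartanMatrix.E₆ GK62L [GK62a] ![-1, -1, -1, -1, 0, 0] := Cgr.one [(![0, 1, 0, 0, 0, 0], true)] [] ![-1, -1, -1, -1, 0, 0] (by decide +kernel) (by decide +kernel)
  (show ∀ p ∈ [(![0, 1, 0, 0, 0, 0], true)], Cgr CartanMatrix.E₆ GK62L [GK62a] p.1 from List.forall_mem_cons.2 ⟨GK62_9, List.forall_mem_nil _⟩)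
theorem GK62_14 : Cgr CartanMatrix.E₆ GK62L [GK62a] ![0, 1, 0, 1, 1, 1] := Cgr.yy _ GK62a _ GK62_10 (by decide +kernel)
theorem GK62_15 : Cgr CartanMatrix.E₆ GK62L [GK62a] ![0, 0, 0, 0, 0, 1] := Cgr.act _ [] [(![-1, -1, -2, -3, -2, -1], false), (![0, -1, -1, -2, -2, -1], true)] ![1, 1, 2, 2, 1, 1] _ GK62_10 (by decide +kernel) (by decide +kernel)
theorem GK62_16 : Cgr CartanMatrix.E₆ GK62L [GK62a] ![0, 0, -1, -1, -1, -1] := Cgr.act _ [] [(![0, -1, -1, -1, 0, 0], true), (![0, -1, -1, -1, -1, -1], true)] ![0, 1, 0, 1, 0, 0] _ GK62_11 (by decide +kernel) (by decide +kernel)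
theorem GK62_17 : Cgr CartanMatrix.E₆ GK62L [GK62a] ![0, 0, 0, 0, 1, 0] := Cgr.add _ _ _ GK62_12 GK62_13 (by decide +kernel)
theorem GK62_18 : Cgr CartanMatrix.E₆ GK62L [GK62a] ![0, 1, 1, 2, 2, 1] := Cgr.yy _ GK62a _ GK62_13 (by decide +kernel)
theorem GK62_19 : Cgr CartanMatrix.E₆ GK62L [GK62a] ![-1, 0, -1, 0, 0, 0] := Cgr.act _ [] [(![0, -1, -1, -1, 0, 0], true), (![0, -1, -1, -1, -1, -1], true)] ![0, 1, 0, 1, 0, 0] _ GK62_13 (by decide +kernel) (by decide +kernel)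
theorem GK62_20 : Cgr CartanMatrix.E₆ GK62L [GK62a] ![0, 0, -1, 0, 0, 0] := Cgr.act _ [(![0, 1, 0, 1, 0, 0], true), (![0, -1, -1, -1, 0, 0], true)] [] ![0, -1, -1, -1, -1, -1] _ GK62_14 (by decide +kernel) (by decide +kernel)
theorem GK62_21 : Cgr CartanMatrix.E₆ GK62L [GK62a] ![0, -1, -1, -1, -1, 0] := Cgr.act _ [(![0, 1, 0, 1, 0, 0], true), (![0, -1, -1, -1, 0, 0], true)] [] ![0, -1, -1, -1, -1, -1] _ GK62_15 (by decide +kernel) (by decide +kernel)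
theorem GK62_22 : Cgr CartanMatrix.E₆ GK62L [GK62a] ![1, 1, 1, 1, 0, 0] := Cgr.act _ [] [(![-1, -1, -2, -3, -2, -1], false), (![0, -1, -1, -2, -2, -1], true)] ![1, 1, 2, 2, 1, 1] _ GK62_16 (by decide +kernel) (by decide +kernel)
theorem GK62_23 : Cgr CartanMatrix.E₆ GK62L [GK62a] ![0, 0, 0, 1, 1, 0] := Cgr.act _ [(![0, 1, 0, 1, 0, 0], true), (![0, -1, -1, -1, 0, 0], true)] [] ![0, -1, -1, -1, -1, -1] _ GK62_18 (by decide +kernel) (by decide +kernel)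
theorem GK62_24 : Cgr CartanMatrix.E₆ GK62L [GK62a] ![-1, 0, 0, 0, 0, 0] := Cgr.add _ _ _ GK62_19 GK62_3 (by decide +kernel)
theorem GK62_25 : Cgr CartanMatrix.E₆ GK62L [GK62a] ![0, -1, 0, -1, -1, 0] := Cgr.add _ _ _ GK62_21 GK62_3 (by decide +kernel)
theorem GK62_26 : Cgr CartanMatrix.E₆ GK62L [GK62a] ![-1, -1, -1, -1, -1, 0] := Cgr.add _ _ _ GK62_21 GK62_24 (by decide +kernel)
theorem GK62_27 : Cgr CartanMatrix.E₆ GK62L [GK62a] ![0, 0, 0, 0, -1, 0] := Cgr.add _ _ _ GK62_22 GK62_26 (by decide +kernel)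
theorem GK62_28 : Cgr CartanMatrix.E₆ GK62L [GK62a] ![0, 0, 0, 0, 0, -1] := Cgr.add _ _ _ GK62_23 GK62_0 (by decide +kernel)
theorem GK62_29 : Cgr CartanMatrix.E₆ GK62L [GK62a] ![0, -1, 0, 0, 0, 0] := Cgr.add _ _ _ GK62_23 GK62_25 (by decide +kernel)
theorem GK62_30 : Cgr CartanMatrix.E₆ GK62L [GK62a] ![0, 0, 0, 1, 0, 0] := Cgr.add _ _ _ GK62_23 GK62_27 (by decide +kernel)

theorem GK62_all (i : Fin 6) : Cgr CartanMatrix.E₆ GK62L [GK62a] (sr i) ∧ Cgr CartanMatrix.E₆ GK62L [GK62a] (-sr i) := by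
  match i with
  | 0 => exact ⟨by rw [show (sr 0 : Fin 6 → ℤ) = ![1, 0, 0, 0, 0, 0] by decide +kernel]; exact GK62_8,
      by rw [show (-sr 0 : Fin 6 → ℤ) = ![-1, 0, 0, 0, 0, 0] by decide +kernel]; exact GK62_24⟩
  | 1 => exact ⟨by rw [show (sr 1 : Fin 6 → ℤ) = ![0, 1, 0, 0, 0, 0] by decide +kernel]; exact GK62_9,
      by rw [show (-sr 1 : Fin 6 → ℤ) = ![0, -1, 0, 0, 0, 0] by decide +kernel]; exact GK62_29⟩
  | 2 => exact ⟨by rw [show (sr 2 : Fin 6 → ℤ) = ![0, 0, 1, 0, 0, 0] by decide +kernel]; exact GK62_3,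
      by rw [show (-sr 2 : Fin 6 → ℤ) = ![0, 0, -1, 0, 0, 0] by decide +kernel]; exact GK62_20⟩
  | 3 => exact ⟨by rw [show (sr 3 : Fin 6 → ℤ) = ![0, 0, 0, 1, 0, 0] by decide +kernel]; exact GK62_30,
      by rw [show (-sr 3 : Fin 6 → ℤ) = ![0, 0, 0, -1, 0, 0] by decide +kernel]; exact GK62_4⟩
  | 4 => exact ⟨by rw [show (sr 4 : Fin 6 → ℤ) = ![0, 0, 0, 0, 1, 0] by decide +kernel]; exact GK62_17,
      by rw [show (-sr 4 : Fin 6 → ℤ) = ![0, 0, 0, 0, -1, 0] by decide +kernel]; exact GK62_27⟩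
  | 5 => exact ⟨by rw [show (sr 5 : Fin 6 → ℤ) = ![0, 0, 0, 0, 0, 1] by decide +kernel]; exact GK62_15,
      by rw [show (-sr 5 : Fin 6 → ℤ) = ![0, 0, 0, 0, 0, -1] by decide +kernel]; exact GK62_28⟩

theorem GK62 : Ct2 CartanMatrix.E₆ ![1, 2, 2, 3, 2, 1] := by
  refine ⟨GK62L, rfl, ?_, ?_, GK62_all⟩
  · exact List.forall_mem_cons.2 ⟨⟨![0, 1, 0, 0, 0, 0], ![-1, -1, -1, -1, 0, 0], true, true, [], rfl, by decide +kernel, by decide +kernel, by decide +kernel, by decide +kernel, by decide +kernel, Or.inl rfl⟩,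
      List.forall_mem_cons.2 ⟨⟨![0, 1, 1, 1, 1, 0], ![0, -1, -1, -2, -1, 0], true, true, [], rfl, by decide +kernel, by decide +kernel, by decide +kernel, by decide +kernel, by decide +kernel, Or.inl rfl⟩,
      List.forall_mem_cons.2 ⟨⟨![0, 1, 0, 1, 0, 0], ![0, -1, -1, -1, 0, 0], true, true, [(![0, -1, -1, -1, -1, -1], true)], rfl, by decide +kernel, by decide +kernel, by decide +kernel, by decide +kernel, by decide +kernel, Or.inr ⟨![0, -1, -1, -1, -1, -1], true, rfl, by decide +kernel, Or.inl (by decide +kernel)⟩⟩,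
      List.forall_mem_cons.2 ⟨⟨![1, 1, 2, 2, 1, 1], ![-1, -1, -2, -3, -2, -1], true, false, [(![0, -1, -1, -2, -2, -1], true)], rfl, by decide +kernel, by decide +kernel, by decide +kernel, by decide +kernel, by decide +kernel, Or.inr ⟨![0, -1, -1, -2, -2, -1], true, rfl, by decide +kernel, Or.inl (by decide +kernel)⟩⟩,
      List.forall_mem_nil _⟩⟩⟩⟩
  · exact ⟨[(![1, 1, 2, 2, 1, 1], true)], [(![0, -1, -1, -2, -2, -1], true)], ![-1, -1, -2, -3, -2, -1], by decide +kernel, by decide +kernel, by decide +kernel⟩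

end Pool.Agent.EXC
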