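import Pool.Agent.helper16.EXG.Defs

/-!
# Project EXG (MP_561ff4_al): the certificate for `E₇`, type `0` (computer generated)
-/

set_option autoImplicit false

open Finset

namespace Pool.Agent.EXC

def GK70l : List ((Fin 7 → ℤ) × (Fin 7 → ℤ)) := [(![0, -1, 0, -1, -1, -1, -1], ![-1, -2, -3, -4, -3, -2, -1]),
  (![0, 0, 0, 0, 0, 1, 1], ![-1, 0, -1, 0, 0, 0, 0]),
  (![0, -1, -1, -2, -1, -1, -1], ![0, 0, 0, -1, -1, -1, 0]),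
  (![1, 1, 1, 2, 1, 0, 0], ![0, 1, 1, 2, 2, 1, 1])]
def GK70u : Fin 7 → ℤ := ![0, 1, 0, 1, 1, 1, 0]
def GK70v : Fin 7 → ℤ := ![0, 0, 0, 0, 0, -1, -1]
def GK70L : List (List ((Fin 7 → ℤ) × Bool)) := (GK70l.map fun p => [(p.1, true), (p.2, true)]) ++ [[(GK70u, true), (GK70v, false)]]

theorem GK70_0 : Cgr CartanMatrix.E₇ GK70L [] ![0, 0, 0, 0, 0, 0, -1] := Cgr.com [] [(![-1, -2, -3, -4, -3, -2, -1], true)] [] [(![0, 0, 0, 0, 0, -1, -1], false)] ![0, -1, 0, -1, -1, -1, -1] ![0, 1, 0, 1, 1, 1, 0] _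
  (by decide +kernel) (by decide +kernel) (by decide +kernel)
theorem GK70_1 : Cgr CartanMatrix.E₇ GK70L [] ![1, 1, 1, 2, 1, 1, 1] := Cgr.com [] [(![-1, 0, -1, 0, 0, 0, 0], true)] [] [(![0, 1, 1, 2, 2, 1, 1], true)] ![0, 0, 0, 0, 0, 1, 1] ![1, 1, 1, 2, 1, 0, 0] _
  (by decide +kernel) (by decide +kernel) (by decide +kernel)
theorem GK70_2 : Cgr CartanMatrix.E₇ GK70L [] ![0, 0, 0, 0, 1, 0, 0] := Cgr.com [] [(![0, 0, 0, -1, -1, -1, 0], true)] [(![1, 1, 1, 2, 1, 0, 0], true)] [] ![0, -1, -1, -2, -1, -1, -1] ![0, 1, 1, 2, 2, 1, 1] _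
  (by decide +kernel) (by decide +kernel) (by decide +kernel)
theorem GK70_3 : Cgr CartanMatrix.E₇ GK70L [] ![0, 1, 0, 0, 0, 0, 0] := Cgr.com [(![0, -1, -1, -2, -1, -1, -1], true)] [] [] [(![0, 0, 0, 0, 0, -1, -1], false)] ![0, 0, 0, -1, -1, -1, 0] ![0, 1, 0, 1, 1, 1, 0] _
  (by decide +kernel) (by decide +kernel) (by decide +kernel)
theorem GK70_4 : Cgr CartanMatrix.E₇ GK70L [] ![0, 0, 0, 0, 0, 1, 0] := Cgr.act _ [] [(![-1, 0, -1, 0, 0, 0, 0], true)] ![0, 0, 0, 0, 0, 1, 1] _ GK70_0 (by decide +kernel) (by decide +kernel)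
theorem GK70_5 : Cgr CartanMatrix.E₇ GK70L [] ![0, 0, 0, -1, -1, -1, -1] := Cgr.act _ [(![0, -1, -1, -2, -1, -1, -1], true)] [] ![0, 0, 0, -1, -1, -1, 0] _ GK70_0 (by decide +kernel) (by decide +kernel)
theorem GK70_6 : Cgr CartanMatrix.E₇ GK70L [] ![1, 0, 1, 1, 0, 0, 0] := Cgr.act _ [] [(![-1, -2, -3, -4, -3, -2, -1], true)] ![0, -1, 0, -1, -1, -1, -1] _ GK70_1 (by decide +kernel) (by decide +kernel)
theorem GK70_7 : Cgr CartanMatrix.E₇ GK70L [] ![1, 0, 0, 0, 0, 0, 0] := Cgr.act _ [] [(![0, 0, 0, -1, -1, -1, 0], true)] ![0, -1, -1, -2, -1, -1, -1] _ GK70_1 (by decide +kernel) (by decide +kernel)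
theorem GK70_8 : Cgr CartanMatrix.E₇ GK70L [] ![0, 0, 0, 0, 1, 1, 1] := Cgr.act _ [] [(![-1, 0, -1, 0, 0, 0, 0], true)] ![0, 0, 0, 0, 0, 1, 1] _ GK70_2 (by decide +kernel) (by decide +kernel)
theorem GK70_9 : Cgr CartanMatrix.E₇ GK70L [] ![0, 0, 0, -1, -1, 0, 0] := Cgr.act _ [(![0, -1, -1, -2, -1, -1, -1], true)] [] ![0, 0, 0, -1, -1, -1, 0] _ GK70_4 (by decide +kernel) (by decide +kernel)
theorem GK70_10 : Cgr CartanMatrix.E₇ GK70L [] ![0, 0, 0, -1, 0, 0, 0] := Cgr.add _ _ _ GK70_5 GK70_8 (by decide +kernel)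
theorem GK70_11 : Cgr CartanMatrix.E₇ GK70L [] ![0, 1, 1, 1, 1, 0, 0] := Cgr.act _ [(![1, 1, 1, 2, 1, 0, 0], true)] [] ![0, 1, 1, 2, 2, 1, 1] _ GK70_5 (by decide +kernel) (by decide +kernel)
theorem GK70_12 : Cgr CartanMatrix.E₇ GK70L [] ![0, 0, 0, 1, 0, 0, 0] := Cgr.act _ [(![0, 0, 0, 0, 0, 1, 1], true)] [] ![-1, 0, -1, 0, 0, 0, 0] _ GK70_6 (by decide +kernel) (by decide +kernel)
theorem GK70_13 : Cgr CartanMatrix.E₇ GK70L [] ![1, 1, 2, 3, 2, 1, 1] := Cgr.act _ [(![1, 1, 1, 2, 1, 0, 0], true)] [] ![0, 1, 1, 2, 2, 1, 1] _ GK70_6 (by decide +kernel) (by decide +kernel)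
theorem GK70_14 : Cgr CartanMatrix.E₇ GK70L [] ![0, 0, -1, 0, 0, 0, 0] := Cgr.act _ [(![0, 0, 0, 0, 0, 1, 1], true)] [] ![-1, 0, -1, 0, 0, 0, 0] _ GK70_7 (by decide +kernel) (by decide +kernel)
theorem GK70_15 : Cgr CartanMatrix.E₇ GK70L [] ![0, 0, 0, 1, 1, 1, 1] := Cgr.add _ _ _ GK70_8 GK70_12 (by decide +kernel)
theorem GK70_16 : Cgr CartanMatrix.E₇ GK70L [] ![0, -1, 0, -1, 0, 0, 0] := Cgr.act _ [] [(![-1, -2, -3, -4, -3, -2, -1], true)] ![0, -1, 0, -1, -1, -1, -1] _ GK70_8 (by decide +kernel) (by decide +kernel)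
theorem GK70_17 : Cgr CartanMatrix.E₇ GK70L [] ![0, 0, 0, 0, -1, 0, 0] := Cgr.add _ _ _ GK70_9 GK70_12 (by decide +kernel)
theorem GK70_18 : Cgr CartanMatrix.E₇ GK70L [] ![1, 1, 2, 2, 1, 1, 1] := Cgr.add _ _ _ GK70_9 GK70_13 (by decide +kernel)
theorem GK70_19 : Cgr CartanMatrix.E₇ GK70L [] ![-1, 0, -1, -1, -1, 0, 0] := Cgr.act _ [(![0, 0, 0, 0, 0, 1, 1], true)] [] ![-1, 0, -1, 0, 0, 0, 0] _ GK70_9 (by decide +kernel) (by decide +kernel)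
theorem GK70_20 : Cgr CartanMatrix.E₇ GK70L [] ![0, 1, 1, 2, 1, 0, 0] := Cgr.add _ _ _ GK70_11 GK70_12 (by decide +kernel)
theorem GK70_21 : Cgr CartanMatrix.E₇ GK70L [] ![0, 1, 1, 1, 0, 0, 0] := Cgr.add _ _ _ GK70_11 GK70_17 (by decide +kernel)
theorem GK70_22 : Cgr CartanMatrix.E₇ GK70L [] ![-1, -1, -2, -3, -2, -2, -1] := Cgr.act _ [(![0, -1, 0, -1, -1, -1, -1], true)] [] ![-1, -2, -3, -4, -3, -2, -1] _ GK70_11 (by decide +kernel) (by decide +kernel)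
theorem GK70_23 : Cgr CartanMatrix.E₇ GK70L [] ![0, -1, 0, 0, 0, 0, 0] := Cgr.add _ _ _ GK70_12 GK70_16 (by decide +kernel)
theorem GK70_24 : Cgr CartanMatrix.E₇ GK70L [] ![0, 0, 0, 0, 0, -1, 0] := Cgr.add _ _ _ GK70_13 GK70_22 (by decide +kernel)
theorem GK70_25 : Cgr CartanMatrix.E₇ GK70L [] ![-1, -1, -2, -2, -1, -1, 0] := Cgr.add _ _ _ GK70_15 GK70_22 (by decide +kernel)
theorem GK70_26 : Cgr CartanMatrix.E₇ GK70L [] ![0, 0, 1, 1, 1, 0, 0] := Cgr.add _ _ _ GK70_16 GK70_20 (by decide +kernel)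
theorem GK70_27 : Cgr CartanMatrix.E₇ GK70L [] ![0, 0, 1, 0, 0, 0, 0] := Cgr.add _ _ _ GK70_16 GK70_21 (by decide +kernel)
theorem GK70_28 : Cgr CartanMatrix.E₇ GK70L [] ![0, 0, 0, 0, 0, 0, 1] := Cgr.add _ _ _ GK70_18 GK70_25 (by decide +kernel)
theorem GK70_29 : Cgr CartanMatrix.E₇ GK70L [] ![-1, 0, 0, 0, 0, 0, 0] := Cgr.add _ _ _ GK70_19 GK70_26 (by decide +kernel)

theorem GK70_all (i : Fin 7) : Cgr CartanMatrix.E₇ GK70L [] (sr i) ∧ Cgr CartanMatrix.E₇ GK70L [] (-sr i) := by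
  match i with
  | 0 => exact ⟨by rw [show (sr 0 : Fin 7 → ℤ) = ![1, 0, 0, 0, 0, 0, 0] by decide +kernel]; exact GK70_7,
      by rw [show (-sr 0 : Fin 7 → ℤ) = ![-1, 0, 0, 0, 0, 0, 0] by decide +kernel]; exact GK70_29⟩
  | 1 => exact ⟨by rw [show (sr 1 : Fin 7 → ℤ) = ![0, 1, 0, 0, 0, 0, 0] by decide +kernel]; exact GK70_3,
      by rw [show (-sr 1 : Fin 7 → ℤ) = ![0, -1, 0, 0, 0, 0, 0] by decide +kernel]; exact GK70_23⟩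
  | 2 => exact ⟨by rw [show (sr 2 : Fin 7 → ℤ) = ![0, 0, 1, 0, 0, 0, 0] by decide +kernel]; exact GK70_27,
      by rw [show (-sr 2 : Fin 7 → ℤ) = ![0, 0, -1, 0, 0, 0, 0] by decide +kernel]; exact GK70_14⟩
  | 3 => exact ⟨by rw [show (sr 3 : Fin 7 → ℤ) = ![0, 0, 0, 1, 0, 0, 0] by decide +kernel]; exact GK70_12,
      by rw [show (-sr 3 : Fin 7 → ℤ) = ![0, 0, 0, -1, 0, 0, 0] by decide +kernel]; exact GK70_10⟩
  | 4 => exact ⟨by rw [show (sr 4 : Fin 7 → ℤ) = ![0, 0, 0, 0, 1, 0, 0] by decide +kernel]; exact GK70_2,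
      by rw [show (-sr 4 : Fin 7 → ℤ) = ![0, 0, 0, 0, -1, 0, 0] by decide +kernel]; exact GK70_17⟩
  | 5 => exact ⟨by rw [show (sr 5 : Fin 7 → ℤ) = ![0, 0, 0, 0, 0, 1, 0] by decide +kernel]; exact GK70_4,
      by rw [show (-sr 5 : Fin 7 → ℤ) = ![0, 0, 0, 0, 0, -1, 0] by decide +kernel]; exact GK70_24⟩
  | 6 => exact ⟨by rw [show (sr 6 : Fin 7 → ℤ) = ![0, 0, 0, 0, 0, 0, 1] by decide +kernel]; exact GK70_28,
      by rw [show (-sr 6 : Fin 7 → ℤ) = ![0, 0, 0, 0, 0, 0, -1] by decide +kernel]; exact GK70_0⟩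

theorem GK70 : Ct0 CartanMatrix.E₇ (0) := ⟨GK70l, GK70u, GK70v, rfl, by decide +kernel, by decide +kernel, by decide +kernel, by decide +kernel, GK70_all⟩

end Pool.Agent.EXC
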