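import Pool.Agent.helper16.EXG.Defs

/-!
# Project EXG (MP_561ff4_al): the certificate for `E₇`, type `-1` (computer generated)
-/

set_option autoImplicit false

open Finset

namespace Pool.Agent.EXC

def GK71l : List ((Fin 7 → ℤ) × (Fin 7 → ℤ)) := [(![0, 0, 0, -1, -1, -1, -1], ![-1, -2, -2, -3, -2, -1, 0]),
  (![0, -1, -1, -2, -1, -1, -1], ![0, 0, 1, 1, 1, 1, 1]),
  (![-1, -1, -1, -2, -1, -1, 0], ![0, 0, 0, 1, 0, 0, 0]),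
  (![0, 0, 1, 1, 1, 0, 0], ![0, 1, 0, 1, 1, 1, 0])]
def GK71u : Fin 7 → ℤ := ![1, 1, 1, 2, 1, 1, 1]
def GK71v : Fin 7 → ℤ := ![-1, -1, -1, -1, 0, 0, 0]
def GK71L : List (List ((Fin 7 → ℤ) × Bool)) := (GK71l.map fun p => [(p.1, true), (p.2, true)]) ++ [[(GK71u, true), (GK71v, false)]]

theorem GK71_0 : Cgr CartanMatrix.E₇ GK71L [] ![0, 0, 1, 0, 0, 0, 0] := Cgr.com [] [(![-1, -2, -2, -3, -2, -1, 0], true)] [(![0, -1, -1, -2, -1, -1, -1], true)] [] ![0, 0, 0, -1, -1, -1, -1] ![0, 0, 1, 1, 1, 1, 1] _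
  (by decide +kernel) (by decide +kernel) (by decide +kernel)
theorem GK71_1 : Cgr CartanMatrix.E₇ GK71L [] ![0, 0, 0, 0, 0, 0, 1] := Cgr.com [] [(![0, 0, 0, 1, 0, 0, 0], true)] [] [(![-1, -1, -1, -1, 0, 0, 0], false)] ![-1, -1, -1, -2, -1, -1, 0] ![1, 1, 1, 2, 1, 1, 1] _
  (by decide +kernel) (by decide +kernel) (by decide +kernel)
theorem GK71_2 : Cgr CartanMatrix.E₇ GK71L [] ![0, 0, 1, 1, 0, 0, 0] := Cgr.act _ [(![-1, -1, -1, -2, -1, -1, 0], true)] [] ![0, 0, 0, 1, 0, 0, 0] _ GK71_0 (by decide +kernel) (by decide +kernel)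
theorem GK71_3 : Cgr CartanMatrix.E₇ GK71L [] ![0, 1, 1, 1, 1, 1, 0] := Cgr.act _ [(![0, 0, 1, 1, 1, 0, 0], true)] [] ![0, 1, 0, 1, 1, 1, 0] _ GK71_0 (by decide +kernel) (by decide +kernel)
theorem GK71_4 : Cgr CartanMatrix.E₇ GK71L [] ![0, 0, 0, -1, -1, -1, 0] := Cgr.act _ [] [(![-1, -2, -2, -3, -2, -1, 0], true)] ![0, 0, 0, -1, -1, -1, -1] _ GK71_1 (by decide +kernel) (by decide +kernel)
theorem GK71_5 : Cgr CartanMatrix.E₇ GK71L [] ![0, -1, -1, -2, -1, -1, 0] := Cgr.act _ [] [(![0, 0, 1, 1, 1, 1, 1], true)] ![0, -1, -1, -2, -1, -1, -1] _ GK71_1 (by decide +kernel) (by decide +kernel)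
theorem GK71_6 : Cgr CartanMatrix.E₇ GK71L [] ![0, -1, 0, -1, -1, -1, -1] := Cgr.act _ [] [(![0, 0, 1, 1, 1, 1, 1], true)] ![0, -1, -1, -2, -1, -1, -1] _ GK71_2 (by decide +kernel) (by decide +kernel)
theorem GK71_7 : Cgr CartanMatrix.E₇ GK71L [] ![0, 1, 1, 2, 1, 1, 0] := Cgr.act _ [(![0, 0, 1, 1, 1, 0, 0], true)] [] ![0, 1, 0, 1, 1, 1, 0] _ GK71_2 (by decide +kernel) (by decide +kernel)
theorem GK71_8 : Cgr CartanMatrix.E₇ GK71L [] ![0, 0, 0, -1, 0, 0, 0] := Cgr.add _ _ _ GK71_3 GK71_5 (by decide +kernel)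
theorem GK71_9 : Cgr CartanMatrix.E₇ GK71L [] ![-1, -1, -1, -2, -1, 0, 0] := Cgr.act _ [(![0, 0, 0, -1, -1, -1, -1], true)] [] ![-1, -2, -2, -3, -2, -1, 0] _ GK71_3 (by decide +kernel) (by decide +kernel)
theorem GK71_10 : Cgr CartanMatrix.E₇ GK71L [] ![0, 0, 0, 0, -1, -1, 0] := Cgr.act _ [(![-1, -1, -1, -2, -1, -1, 0], true)] [] ![0, 0, 0, 1, 0, 0, 0] _ GK71_4 (by decide +kernel) (by decide +kernel)
theorem GK71_11 : Cgr CartanMatrix.E₇ GK71L [] ![0, -1, -1, -1, -1, -1, 0] := Cgr.act _ [(![-1, -1, -1, -2, -1, -1, 0], true)] [] ![0, 0, 0, 1, 0, 0, 0] _ GK71_5 (by decide +kernel) (by decide +kernel)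
theorem GK71_12 : Cgr CartanMatrix.E₇ GK71L [] ![0, 0, 0, 0, 0, 0, -1] := Cgr.act _ [(![0, 0, 1, 1, 1, 0, 0], true)] [] ![0, 1, 0, 1, 1, 1, 0] _ GK71_6 (by decide +kernel) (by decide +kernel)
theorem GK71_13 : Cgr CartanMatrix.E₇ GK71L [] ![0, 0, 0, 1, 0, 0, 0] := Cgr.add _ _ _ GK71_7 GK71_11 (by decide +kernel)
theorem GK71_14 : Cgr CartanMatrix.E₇ GK71L [] ![-1, 0, 0, 0, 0, 0, 0] := Cgr.act _ [] [(![0, 0, 0, 1, 0, 0, 0], true)] ![-1, -1, -1, -2, -1, -1, 0] _ GK71_7 (by decide +kernel) (by decide +kernel)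
theorem GK71_15 : Cgr CartanMatrix.E₇ GK71L [] ![0, 0, 0, 0, 0, 1, 1] := Cgr.act _ [] [(![-1, -1, -1, -1, 0, 0, 0], false)] ![1, 1, 1, 2, 1, 1, 1] _ GK71_9 (by decide +kernel) (by decide +kernel)
theorem GK71_16 : Cgr CartanMatrix.E₇ GK71L [] ![0, 0, 0, 0, -1, -1, -1] := Cgr.add _ _ _ GK71_10 GK71_12 (by decide +kernel)
theorem GK71_17 : Cgr CartanMatrix.E₇ GK71L [] ![0, -1, -1, -1, -1, -1, -1] := Cgr.add _ _ _ GK71_11 GK71_12 (by decide +kernel)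
theorem GK71_18 : Cgr CartanMatrix.E₇ GK71L [] ![-1, -1, -1, -1, -1, -1, 0] := Cgr.add _ _ _ GK71_11 GK71_14 (by decide +kernel)
theorem GK71_19 : Cgr CartanMatrix.E₇ GK71L [] ![0, 0, 0, -1, -1, -1, -1] := Cgr.add _ _ _ GK71_12 GK71_4 (by decide +kernel)
theorem GK71_20 : Cgr CartanMatrix.E₇ GK71L [] ![0, -1, -1, -2, -1, -1, -1] := Cgr.add _ _ _ GK71_12 GK71_5 (by decide +kernel)
theorem GK71_21 : Cgr CartanMatrix.E₇ GK71L [] ![0, 0, 0, 0, 0, 1, 0] := Cgr.add _ _ _ GK71_12 GK71_15 (by decide +kernel)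
theorem GK71_22 : Cgr CartanMatrix.E₇ GK71L [] ![-1, -1, -1, -2, -1, -1, 0] := Cgr.one [] [(![0, 0, 0, 1, 0, 0, 0], true)] ![-1, -1, -1, -2, -1, -1, 0] (by decide +kernel) (by decide +kernel)
  (show ∀ p ∈ [(![0, 0, 0, 1, 0, 0, 0], true)], Cgr CartanMatrix.E₇ GK71L [] p.1 from List.forall_mem_cons.2 ⟨GK71_13, List.forall_mem_nil _⟩)
theorem GK71_23 : Cgr CartanMatrix.E₇ GK71L [] ![0, 0, 0, 0, -1, 0, 0] := Cgr.add _ _ _ GK71_15 GK71_16 (by decide +kernel)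
theorem GK71_24 : Cgr CartanMatrix.E₇ GK71L [] ![0, -1, 0, 0, 0, 0, 0] := Cgr.act _ [(![0, -1, -1, -2, -1, -1, -1], true)] [] ![0, 0, 1, 1, 1, 1, 1] _ GK71_17 (by decide +kernel) (by decide +kernel)
theorem GK71_25 : Cgr CartanMatrix.E₇ GK71L [] ![-1, 0, -1, 0, 0, 0, 0] := Cgr.act _ [(![0, 0, 1, 1, 1, 0, 0], true)] [] ![0, 1, 0, 1, 1, 1, 0] _ GK71_18 (by decide +kernel) (by decide +kernel)
theorem GK71_26 : Cgr CartanMatrix.E₇ GK71L [] ![-1, -1, -2, -2, -1, -1, -1] := Cgr.add _ _ _ GK71_20 GK71_25 (by decide +kernel)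
theorem GK71_27 : Cgr CartanMatrix.E₇ GK71L [] ![0, -1, 0, -1, 0, 0, 0] := Cgr.act _ [(![0, -1, -1, -2, -1, -1, -1], true)] [] ![0, 0, 1, 1, 1, 1, 1] _ GK71_20 (by decide +kernel) (by decide +kernel)
theorem GK71_28 : Cgr CartanMatrix.E₇ GK71L [] ![-1, 0, -1, -1, 0, 0, 0] := Cgr.act _ [(![0, 0, 1, 1, 1, 0, 0], true)] [] ![0, 1, 0, 1, 1, 1, 0] _ GK71_22 (by decide +kernel) (by decide +kernel)
theorem GK71_29 : Cgr CartanMatrix.E₇ GK71L [] ![0, 0, -1, 0, 0, 0, 0] := Cgr.act _ [] [(![-1, -1, -1, -1, 0, 0, 0], false)] ![1, 1, 1, 2, 1, 1, 1] _ GK71_26 (by decide +kernel) (by decide +kernel)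
theorem GK71_30 : Cgr CartanMatrix.E₇ GK71L [] ![1, 0, 1, 1, 1, 1, 1] := Cgr.act _ [] [(![-1, -1, -1, -1, 0, 0, 0], false)] ![1, 1, 1, 2, 1, 1, 1] _ GK71_27 (by decide +kernel) (by decide +kernel)
theorem GK71_31 : Cgr CartanMatrix.E₇ GK71L [] ![0, 1, 0, 1, 1, 1, 1] := Cgr.act _ [] [(![-1, -1, -1, -1, 0, 0, 0], false)] ![1, 1, 1, 2, 1, 1, 1] _ GK71_28 (by decide +kernel) (by decide +kernel)
theorem GK71_32 : Cgr CartanMatrix.E₇ GK71L [] ![0, 1, 0, 1, 1, 1, 0] := Cgr.add _ _ _ GK71_29 GK71_3 (by decide +kernel)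
theorem GK71_33 : Cgr CartanMatrix.E₇ GK71L [] ![0, 0, -1, -1, -1, -1, 0] := Cgr.add _ _ _ GK71_29 GK71_4 (by decide +kernel)
theorem GK71_34 : Cgr CartanMatrix.E₇ GK71L [] ![0, 0, -1, -1, 0, 0, 0] := Cgr.add _ _ _ GK71_29 GK71_8 (by decide +kernel)
theorem GK71_35 : Cgr CartanMatrix.E₇ GK71L [] ![0, 0, -1, -1, -1, -1, -1] := Cgr.add _ _ _ GK71_29 GK71_19 (by decide +kernel)
theorem GK71_36 : Cgr CartanMatrix.E₇ GK71L [] ![1, 0, 0, 0, 0, 0, 0] := Cgr.add _ _ _ GK71_30 GK71_35 (by decide +kernel)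
theorem GK71_37 : Cgr CartanMatrix.E₇ GK71L [] ![0, 1, 0, 0, 0, 0, 0] := Cgr.add _ _ _ GK71_31 GK71_19 (by decide +kernel)
theorem GK71_38 : Cgr CartanMatrix.E₇ GK71L [] ![0, 0, 1, 1, 1, 0, 0] := Cgr.one [] [(![0, 1, 0, 1, 1, 1, 0], true)] ![0, 0, 1, 1, 1, 0, 0] (by decide +kernel) (by decide +kernel)
  (show ∀ p ∈ [(![0, 1, 0, 1, 1, 1, 0], true)], Cgr CartanMatrix.E₇ GK71L [] p.1 from List.forall_mem_cons.2 ⟨GK71_32, List.forall_mem_nil _⟩)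
theorem GK71_39 : Cgr CartanMatrix.E₇ GK71L [] ![0, 0, 0, 0, 0, -1, 0] := Cgr.add _ _ _ GK71_33 GK71_38 (by decide +kernel)
theorem GK71_40 : Cgr CartanMatrix.E₇ GK71L [] ![0, 0, 0, 0, 1, 0, 0] := Cgr.add _ _ _ GK71_34 GK71_38 (by decide +kernel)

theorem GK71_all (i : Fin 7) : Cgr CartanMatrix.E₇ GK71L [] (sr i) ∧ Cgr CartanMatrix.E₇ GK71L [] (-sr i) := by
  match i with
  | 0 => exact ⟨by rw [show (sr 0 : Fin 7 → ℤ) = ![1, 0, 0, 0, 0, 0, 0] by decide +kernel]; exact GK71_36,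
      by rw [show (-sr 0 : Fin 7 → ℤ) = ![-1, 0, 0, 0, 0, 0, 0] by decide +kernel]; exact GK71_14⟩
  | 1 => exact ⟨by rw [show (sr 1 : Fin 7 → ℤ) = ![0, 1, 0, 0, 0, 0, 0] by decide +kernel]; exact GK71_37,
      by rw [show (-sr 1 : Fin 7 → ℤ) = ![0, -1, 0, 0, 0, 0, 0] by decide +kernel]; exact GK71_24⟩
  | 2 => exact ⟨by rw [show (sr 2 : Fin 7 → ℤ) = ![0, 0, 1, 0, 0, 0, 0] by decide +kernel]; exact GK71_0,
      by rw [show (-sr 2 : Fin 7 → ℤ) = ![0, 0, -1, 0, 0, 0, 0] by decide +kernel]; exact GK71_29⟩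
  | 3 => exact ⟨by rw [show (sr 3 : Fin 7 → ℤ) = ![0, 0, 0, 1, 0, 0, 0] by decide +kernel]; exact GK71_13,
      by rw [show (-sr 3 : Fin 7 → ℤ) = ![0, 0, 0, -1, 0, 0, 0] by decide +kernel]; exact GK71_8⟩
  | 4 => exact ⟨by rw [show (sr 4 : Fin 7 → ℤ) = ![0, 0, 0, 0, 1, 0, 0] by decide +kernel]; exact GK71_40,
      by rw [show (-sr 4 : Fin 7 → ℤ) = ![0, 0, 0, 0, -1, 0, 0] by decide +kernel]; exact GK71_23⟩
  | 5 => exact ⟨by rw [show (sr 5 : Fin 7 → ℤ) = ![0, 0, 0, 0, 0, 1, 0] by decide +kernel]; exact GK71_21,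
      by rw [show (-sr 5 : Fin 7 → ℤ) = ![0, 0, 0, 0, 0, -1, 0] by decide +kernel]; exact GK71_39⟩
  | 6 => exact ⟨by rw [show (sr 6 : Fin 7 → ℤ) = ![0, 0, 0, 0, 0, 0, 1] by decide +kernel]; exact GK71_1,
      by rw [show (-sr 6 : Fin 7 → ℤ) = ![0, 0, 0, 0, 0, 0, -1] by decide +kernel]; exact GK71_12⟩

theorem GK71 : Ct0 CartanMatrix.E₇ (-1) := ⟨GK71l, GK71u, GK71v, rfl, by decide +kernel, by decide +kernel, by decide +kernel, by decide +kernel, GK71_all⟩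

end Pool.Agent.EXC
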