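import Pool.Agent.helper16.EXG.Defs

/-!
# Project EXG (MP_561ff4_al): the certificate for `E₇`, type `-2` (computer generated)
-/

set_option autoImplicit false

open Finset

namespace Pool.Agent.EXC

def GK72L : List (List ((Fin 7 → ℤ) × Bool)) := [[(![1, 2, 2, 3, 2, 2, 1], true), (![-1, -1, -1, -1, -1, -1, 0], true), (![1, 2, 2, 3, 2, 1, 1], true)],
  [(![1, 1, 1, 2, 2, 2, 1], true), (![-1, -1, -1, -2, -1, -1, -1], true), (![-1, 0, -1, -1, 0, 0, 0], true)],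
  [(![1, 0, 0, 0, 0, 0, 0], true), (![-1, -1, -1, -2, -1, 0, 0], true)],
  [(![1, 1, 2, 2, 1, 1, 1], false), (![-1, -1, -2, -2, -2, -1, -1], true), (![1, 0, 1, 1, 0, 0, 0], true)]]
def GK72a : Fin 7 → ℤ := ![2, 2, 3, 4, 3, 2, 1]

theorem GK72_0 : Cgr CartanMatrix.E₇ GK72L [GK72a] ![0, 1, 0, 1, 0, 0, 0] := Cgr.com [(![1, 2, 2, 3, 2, 2, 1], true), (![-1, -1, -1, -1, -1, -1, 0], true)] [] [(![1, 1, 2, 2, 1, 1, 1], false)] [(![1, 0, 1, 1, 0, 0, 0], true)] ![1, 2, 2, 3, 2, 1, 1] ![-1, -1, -2, -2, -2, -1, -1] _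
  (by decide +kernel) (by decide +kernel) (by decide +kernel)
theorem GK72_1 : Cgr CartanMatrix.E₇ GK72L [GK72a] ![0, -1, 0, -1, -1, 0, 0] := Cgr.com [(![1, 0, 0, 0, 0, 0, 0], true)] [] [(![1, 1, 2, 2, 1, 1, 1], false), (![-1, -1, -2, -2, -2, -1, -1], true)] [] ![-1, -1, -1, -2, -1, 0, 0] ![1, 0, 1, 1, 0, 0, 0] _
  (by decide +kernel) (by decide +kernel) (by decide +kernel)
theorem GK72_2 : Cgr CartanMatrix.E₇ GK72L [GK72a] ![0, 0, 0, 0, -1, 0, 0] := Cgr.add _ _ _ GK72_0 GK72_1 (by decide +kernel)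
theorem GK72_3 : Cgr CartanMatrix.E₇ GK72L [GK72a] ![-1, -1, -1, -2, -1, 0, 0] := Cgr.act _ [(![1, 1, 1, 2, 2, 2, 1], true), (![-1, -1, -1, -2, -1, -1, -1], true)] [] ![-1, 0, -1, -1, 0, 0, 0] _ GK72_1 (by decide +kernel) (by decide +kernel)
theorem GK72_4 : Cgr CartanMatrix.E₇ GK72L [GK72a] ![-1, 0, -1, -1, -1, 0, 0] := Cgr.add _ _ _ GK72_3 GK72_0 (by decide +kernel)
theorem GK72_5 : Cgr CartanMatrix.E₇ GK72L [GK72a] ![1, 1, 2, 2, 2, 2, 1] := Cgr.yy _ GK72a _ GK72_3 (by decide +kernel)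
theorem GK72_6 : Cgr CartanMatrix.E₇ GK72L [GK72a] ![0, 1, 1, 1, 1, 1, 1] := Cgr.act _ [(![1, 2, 2, 3, 2, 2, 1], true), (![-1, -1, -1, -1, -1, -1, 0], true)] [] ![1, 2, 2, 3, 2, 1, 1] _ GK72_3 (by decide +kernel) (by decide +kernel)
theorem GK72_7 : Cgr CartanMatrix.E₇ GK72L [GK72a] ![1, 0, 0, 0, 0, 0, 0] := Cgr.one [] [(![-1, -1, -1, -2, -1, 0, 0], true)] ![1, 0, 0, 0, 0, 0, 0] (by decide +kernel) (by decide +kernel)
  (show ∀ p ∈ [(![-1, -1, -1, -2, -1, 0, 0], true)], Cgr CartanMatrix.E₇ GK72L [GK72a] p.1 from List.forall_mem_cons.2 ⟨GK72_3, List.forall_mem_nil _⟩)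
theorem GK72_8 : Cgr CartanMatrix.E₇ GK72L [GK72a] ![1, 2, 2, 3, 2, 2, 1] := Cgr.yy _ GK72a _ GK72_4 (by decide +kernel)
theorem GK72_9 : Cgr CartanMatrix.E₇ GK72L [GK72a] ![0, 0, 0, 0, 0, 1, 0] := Cgr.act _ [(![1, 1, 2, 2, 1, 1, 1], false)] [(![1, 0, 1, 1, 0, 0, 0], true)] ![-1, -1, -2, -2, -2, -1, -1] _ GK72_5 (by decide +kernel) (by decide +kernel)
theorem GK72_10 : Cgr CartanMatrix.E₇ GK72L [GK72a] ![1, 1, 1, 1, 1, 1, 1] := Cgr.add _ _ _ GK72_6 GK72_7 (by decide +kernel)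
theorem GK72_11 : Cgr CartanMatrix.E₇ GK72L [GK72a] ![0, 1, 1, 1, 1, 1, 0] := Cgr.act _ [(![1, 1, 1, 2, 2, 2, 1], true)] [(![-1, 0, -1, -1, 0, 0, 0], true)] ![-1, -1, -1, -2, -1, -1, -1] _ GK72_8 (by decide +kernel) (by decide +kernel)
theorem GK72_12 : Cgr CartanMatrix.E₇ GK72L [GK72a] ![0, 0, 0, 0, 0, 0, 1] := Cgr.act _ [(![1, 2, 2, 3, 2, 2, 1], true)] [(![1, 2, 2, 3, 2, 1, 1], true)] ![-1, -1, -1, -1, -1, -1, 0] _ GK72_10 (by decide +kernel) (by decide +kernel)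
theorem GK72_13 : Cgr CartanMatrix.E₇ GK72L [GK72a] ![0, 0, 0, -1, 0, 0, 0] := Cgr.act _ [(![1, 1, 1, 2, 2, 2, 1], true)] [(![-1, 0, -1, -1, 0, 0, 0], true)] ![-1, -1, -1, -2, -1, -1, -1] _ GK72_10 (by decide +kernel) (by decide +kernel)
theorem GK72_14 : Cgr CartanMatrix.E₇ GK72L [GK72a] ![-1, 0, 0, 0, 0, 0, 0] := Cgr.act _ [(![1, 2, 2, 3, 2, 2, 1], true)] [(![1, 2, 2, 3, 2, 1, 1], true)] ![-1, -1, -1, -1, -1, -1, 0] _ GK72_11 (by decide +kernel) (by decide +kernel)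
theorem GK72_15 : Cgr CartanMatrix.E₇ GK72L [GK72a] ![0, 1, 0, 0, 0, 0, 0] := Cgr.add _ _ _ GK72_13 GK72_0 (by decide +kernel)
theorem GK72_16 : Cgr CartanMatrix.E₇ GK72L [GK72a] ![1, 2, 3, 4, 3, 2, 1] := Cgr.yy _ GK72a _ GK72_14 (by decide +kernel)
theorem GK72_17 : Cgr CartanMatrix.E₇ GK72L [GK72a] ![0, 1, 1, 2, 2, 2, 1] := Cgr.act _ [] [(![-1, -1, -1, -2, -1, -1, -1], true), (![-1, 0, -1, -1, 0, 0, 0], true)] ![1, 1, 1, 2, 2, 2, 1] _ GK72_14 (by decide +kernel) (by decide +kernel)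
theorem GK72_18 : Cgr CartanMatrix.E₇ GK72L [GK72a] ![0, 0, 1, 1, 0, 0, 0] := Cgr.act _ [(![1, 1, 2, 2, 1, 1, 1], false), (![-1, -1, -2, -2, -2, -1, -1], true)] [] ![1, 0, 1, 1, 0, 0, 0] _ GK72_14 (by decide +kernel) (by decide +kernel)
theorem GK72_19 : Cgr CartanMatrix.E₇ GK72L [GK72a] ![-1, 0, -1, -1, -1, -1, 0] := Cgr.act _ [(![1, 2, 2, 3, 2, 2, 1], true)] [(![1, 2, 2, 3, 2, 1, 1], true)] ![-1, -1, -1, -1, -1, -1, 0] _ GK72_15 (by decide +kernel) (by decide +kernel)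
theorem GK72_20 : Cgr CartanMatrix.E₇ GK72L [GK72a] ![2, 2, 3, 4, 3, 2, 1] := Cgr.add _ _ _ GK72_16 GK72_7 (by decide +kernel)
theorem GK72_21 : Cgr CartanMatrix.E₇ GK72L [GK72a] ![1, 1, 1, 2, 2, 2, 1] := Cgr.add _ _ _ GK72_17 GK72_7 (by decide +kernel)
theorem GK72_22 : Cgr CartanMatrix.E₇ GK72L [GK72a] ![1, 0, 1, 1, 0, 0, 0] := Cgr.add _ _ _ GK72_18 GK72_7 (by decide +kernel)
theorem GK72_23 : Cgr CartanMatrix.E₇ GK72L [GK72a] ![0, 0, 1, 0, 0, 0, 0] := Cgr.add _ _ _ GK72_18 GK72_13 (by decide +kernel)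
theorem GK72_24 : Cgr CartanMatrix.E₇ GK72L [GK72a] ![0, 0, -1, -1, -1, -1, 0] := Cgr.add _ _ _ GK72_19 GK72_7 (by decide +kernel)
theorem GK72_25 : Cgr CartanMatrix.E₇ GK72L [GK72a] ![1, 2, 2, 3, 2, 1, 1] := Cgr.add _ _ _ GK72_19 GK72_20 (by decide +kernel)
theorem GK72_26 : Cgr CartanMatrix.E₇ GK72L [GK72a] ![0, 1, 0, 1, 1, 1, 1] := Cgr.add _ _ _ GK72_19 GK72_21 (by decide +kernel)
theorem GK72_27 : Cgr CartanMatrix.E₇ GK72L [GK72a] ![0, 0, 0, 0, -1, -1, 0] := Cgr.add _ _ _ GK72_19 GK72_22 (by decide +kernel)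
theorem GK72_28 : Cgr CartanMatrix.E₇ GK72L [GK72a] ![1, 1, 2, 3, 2, 1, 1] := Cgr.act _ [(![1, 2, 2, 3, 2, 2, 1], true)] [(![1, 2, 2, 3, 2, 1, 1], true)] ![-1, -1, -1, -1, -1, -1, 0] _ GK72_20 (by decide +kernel) (by decide +kernel)
theorem GK72_29 : Cgr CartanMatrix.E₇ GK72L [GK72a] ![1, 1, 1, 2, 1, 1, 0] := Cgr.act _ [(![1, 1, 2, 2, 1, 1, 1], false)] [(![1, 0, 1, 1, 0, 0, 0], true)] ![-1, -1, -2, -2, -2, -1, -1] _ GK72_20 (by decide +kernel) (by decide +kernel)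
theorem GK72_30 : Cgr CartanMatrix.E₇ GK72L [GK72a] ![0, 0, 0, 0, 1, 1, 0] := Cgr.act _ [(![1, 1, 1, 2, 2, 2, 1], true)] [(![-1, 0, -1, -1, 0, 0, 0], true)] ![-1, -1, -1, -2, -1, -1, -1] _ GK72_21 (by decide +kernel) (by decide +kernel)
theorem GK72_31 : Cgr CartanMatrix.E₇ GK72L [GK72a] ![1, 0, 1, 1, 1, 1, 0] := Cgr.add _ _ _ GK72_22 GK72_30 (by decide +kernel)
theorem GK72_32 : Cgr CartanMatrix.E₇ GK72L [GK72a] ![0, 0, -1, -1, 0, 0, 0] := Cgr.add _ _ _ GK72_24 GK72_30 (by decide +kernel)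
theorem GK72_33 : Cgr CartanMatrix.E₇ GK72L [GK72a] ![-1, -1, -1, -1, -1, -1, 0] := Cgr.one [(![1, 2, 2, 3, 2, 2, 1], true)] [(![1, 2, 2, 3, 2, 1, 1], true)] ![-1, -1, -1, -1, -1, -1, 0] (by decide +kernel) (by decide +kernel)
  (show ∀ p ∈ [(![1, 2, 2, 3, 2, 2, 1], true), (![1, 2, 2, 3, 2, 1, 1], true)], Cgr CartanMatrix.E₇ GK72L [GK72a] p.1 from List.forall_mem_cons.2 ⟨GK72_8, List.forall_mem_cons.2 ⟨GK72_25, List.forall_mem_nil _⟩⟩)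
theorem GK72_34 : Cgr CartanMatrix.E₇ GK72L [GK72a] ![-1, 0, -1, -1, 0, 0, 0] := Cgr.act _ [(![1, 1, 1, 2, 2, 2, 1], true)] [(![-1, 0, -1, -1, 0, 0, 0], true)] ![-1, -1, -1, -2, -1, -1, -1] _ GK72_26 (by decide +kernel) (by decide +kernel)
theorem GK72_35 : Cgr CartanMatrix.E₇ GK72L [GK72a] ![1, 1, 1, 2, 2, 1, 1] := Cgr.add _ _ _ GK72_28 GK72_32 (by decide +kernel)
theorem GK72_36 : Cgr CartanMatrix.E₇ GK72L [GK72a] ![0, 0, 0, 1, 0, 0, 0] := Cgr.act _ [(![1, 1, 2, 2, 1, 1, 1], false)] [(![1, 0, 1, 1, 0, 0, 0], true)] ![-1, -1, -2, -2, -2, -1, -1] _ GK72_28 (by decide +kernel) (by decide +kernel)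
theorem GK72_37 : Cgr CartanMatrix.E₇ GK72L [GK72a] ![0, -1, 0, 0, 0, 0, 0] := Cgr.add _ _ _ GK72_31 GK72_33 (by decide +kernel)
theorem GK72_38 : Cgr CartanMatrix.E₇ GK72L [GK72a] ![0, 0, -1, 0, 0, 0, 0] := Cgr.add _ _ _ GK72_32 GK72_36 (by decide +kernel)
theorem GK72_39 : Cgr CartanMatrix.E₇ GK72L [GK72a] ![-1, -1, -1, -2, -1, -1, -1] := Cgr.one [(![1, 1, 1, 2, 2, 2, 1], true)] [(![-1, 0, -1, -1, 0, 0, 0], true)] ![-1, -1, -1, -2, -1, -1, -1] (by decide +kernel) (by decide +kernel)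
  (show ∀ p ∈ [(![1, 1, 1, 2, 2, 2, 1], true), (![-1, 0, -1, -1, 0, 0, 0], true)], Cgr CartanMatrix.E₇ GK72L [GK72a] p.1 from List.forall_mem_cons.2 ⟨GK72_21, List.forall_mem_cons.2 ⟨GK72_34, List.forall_mem_nil _⟩⟩)
theorem GK72_40 : Cgr CartanMatrix.E₇ GK72L [GK72a] ![0, 0, 0, 0, 1, 0, 0] := Cgr.add _ _ _ GK72_35 GK72_39 (by decide +kernel)
theorem GK72_41 : Cgr CartanMatrix.E₇ GK72L [GK72a] ![0, 0, 0, 0, 0, 0, -1] := Cgr.add _ _ _ GK72_39 GK72_29 (by decide +kernel)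
theorem GK72_42 : Cgr CartanMatrix.E₇ GK72L [GK72a] ![0, 0, 0, 0, 0, -1, 0] := Cgr.add _ _ _ GK72_40 GK72_27 (by decide +kernel)

theorem GK72_all (i : Fin 7) : Cgr CartanMatrix.E₇ GK72L [GK72a] (sr i) ∧ Cgr CartanMatrix.E₇ GK72L [GK72a] (-sr i) := by
  match i with
  | 0 => exact ⟨by rw [show (sr 0 : Fin 7 → ℤ) = ![1, 0, 0, 0, 0, 0, 0] by decide +kernel]; exact GK72_7,
      by rw [show (-sr 0 : Fin 7 → ℤ) = ![-1, 0, 0, 0, 0, 0, 0] by decide +kernel]; exact GK72_14⟩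
  | 1 => exact ⟨by rw [show (sr 1 : Fin 7 → ℤ) = ![0, 1, 0, 0, 0, 0, 0] by decide +kernel]; exact GK72_15,
      by rw [show (-sr 1 : Fin 7 → ℤ) = ![0, -1, 0, 0, 0, 0, 0] by decide +kernel]; exact GK72_37⟩
  | 2 => exact ⟨by rw [show (sr 2 : Fin 7 → ℤ) = ![0, 0, 1, 0, 0, 0, 0] by decide +kernel]; exact GK72_23,
      by rw [show (-sr 2 : Fin 7 → ℤ) = ![0, 0, -1, 0, 0, 0, 0] by decide +kernel]; exact GK72_38⟩
  | 3 => exact ⟨by rw [show (sr 3 : Fin 7 → ℤ) = ![0, 0, 0, 1, 0, 0, 0] by decide +kernel]; exact GK72_36,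
      by rw [show (-sr 3 : Fin 7 → ℤ) = ![0, 0, 0, -1, 0, 0, 0] by decide +kernel]; exact GK72_13⟩
  | 4 => exact ⟨by rw [show (sr 4 : Fin 7 → ℤ) = ![0, 0, 0, 0, 1, 0, 0] by decide +kernel]; exact GK72_40,
      by rw [show (-sr 4 : Fin 7 → ℤ) = ![0, 0, 0, 0, -1, 0, 0] by decide +kernel]; exact GK72_2⟩
  | 5 => exact ⟨by rw [show (sr 5 : Fin 7 → ℤ) = ![0, 0, 0, 0, 0, 1, 0] by decide +kernel]; exact GK72_9,
      by rw [show (-sr 5 : Fin 7 → ℤ) = ![0, 0, 0, 0, 0, -1, 0] by decide +kernel]; exact GK72_42⟩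
  | 6 => exact ⟨by rw [show (sr 6 : Fin 7 → ℤ) = ![0, 0, 0, 0, 0, 0, 1] by decide +kernel]; exact GK72_12,
      by rw [show (-sr 6 : Fin 7 → ℤ) = ![0, 0, 0, 0, 0, 0, -1] by decide +kernel]; exact GK72_41⟩

theorem GK72 : Ct2 CartanMatrix.E₇ ![2, 2, 3, 4, 3, 2, 1] := by
  refine ⟨GK72L, rfl, ?_, ?_, GK72_all⟩
  · exact List.forall_mem_cons.2 ⟨⟨![1, 2, 2, 3, 2, 2, 1], ![-1, -1, -1, -1, -1, -1, 0], true, true, [(![1, 2, 2, 3, 2, 1, 1], true)], rfl, by decide +kernel, by decide +kernel, by decide +kernel, by decide +kernel, by decide +kernel, Or.inr ⟨![1, 2, 2, 3, 2, 1, 1], true, rfl, by decide +kernel, Or.inr (by decide +kernel)⟩⟩,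
      List.forall_mem_cons.2 ⟨⟨![1, 1, 1, 2, 2, 2, 1], ![-1, -1, -1, -2, -1, -1, -1], true, true, [(![-1, 0, -1, -1, 0, 0, 0], true)], rfl, by decide +kernel, by decide +kernel, by decide +kernel, by decide +kernel, by decide +kernel, Or.inr ⟨![-1, 0, -1, -1, 0, 0, 0], true, rfl, by decide +kernel, Or.inl (by decide +kernel)⟩⟩,
      List.forall_mem_cons.2 ⟨⟨![1, 0, 0, 0, 0, 0, 0], ![-1, -1, -1, -2, -1, 0, 0], true, true, [], rfl, by decide +kernel, by decide +kernel, by decide +kernel, by decide +kernel, by decide +kernel, Or.inl rfl⟩,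
      List.forall_mem_cons.2 ⟨⟨![1, 1, 2, 2, 1, 1, 1], ![-1, -1, -2, -2, -2, -1, -1], false, true, [(![1, 0, 1, 1, 0, 0, 0], true)], rfl, by decide +kernel, by decide +kernel, by decide +kernel, by decide +kernel, by decide +kernel, Or.inr ⟨![1, 0, 1, 1, 0, 0, 0], true, rfl, by decide +kernel, Or.inr (by decide +kernel)⟩⟩,
      List.forall_mem_nil _⟩⟩⟩⟩
  · exact ⟨[], [(![-1, -1, -2, -2, -2, -1, -1], true), (![1, 0, 1, 1, 0, 0, 0], true)], ![1, 1, 2, 2, 1, 1, 1], by decide +kernel, by decide +kernel, by decide +kernel⟩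

end Pool.Agent.EXC
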