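import Pool.Agent.helper16.EXG.Defs

/-!
# Project EXG (MP_561ff4_al): the certificate for `E₈`, type `0` (computer generated)
-/

set_option autoImplicit false

open Finset

namespace Pool.Agent.EXC

def GK80l : List ((Fin 8 → ℤ) × (Fin 8 → ℤ)) := [(![0, 0, 0, 0, 0, -1, -1, -1], ![1, 2, 2, 4, 3, 2, 2, 1]),
  (![2, 2, 4, 5, 4, 3, 2, 1], ![1, 2, 2, 3, 3, 3, 2, 1]),
  (![-1, -1, -1, -2, -2, -2, -1, 0], ![-1, -3, -3, -5, -4, -3, -2, -1]),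
  (![-1, 0, -1, -1, -1, -1, -1, -1], ![0, 1, 1, 2, 2, 2, 1, 1])]
def GK80u : Fin 8 → ℤ := ![0, -1, -1, -2, -2, -1, -1, 0]
def GK80v : Fin 8 → ℤ := ![-1, 0, -1, -1, -1, 0, 0, 0]
def GK80L : List (List ((Fin 8 → ℤ) × Bool)) := (GK80l.map fun p => [(p.1, true), (p.2, true)]) ++ [[(GK80u, true), (GK80v, false)]]

theorem GK80_0 : Cgr CartanMatrix.E₈ GK80L [] ![1, 2, 2, 3, 3, 2, 1, 0] := Cgr.com [] [(![1, 2, 2, 4, 3, 2, 2, 1], true)] [(![2, 2, 4, 5, 4, 3, 2, 1], true)] [] ![0, 0, 0, 0, 0, -1, -1, -1] ![1, 2, 2, 3, 3, 3, 2, 1] _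
  (by decide +kernel) (by decide +kernel) (by decide +kernel)
theorem GK80_1 : Cgr CartanMatrix.E₈ GK80L [] ![0, -1, -1, -1, -1, -1, 0, 0] := Cgr.com [(![0, 0, 0, 0, 0, -1, -1, -1], true)] [] [(![-1, -1, -1, -2, -2, -2, -1, 0], true)] [] ![1, 2, 2, 4, 3, 2, 2, 1] ![-1, -3, -3, -5, -4, -3, -2, -1] _
  (by decide +kernel) (by decide +kernel) (by decide +kernel)
theorem GK80_2 : Cgr CartanMatrix.E₈ GK80L [] ![0, 1, 1, 2, 2, 1, 0, 0] := Cgr.com [] [(![1, 2, 2, 4, 3, 2, 2, 1], true)] [(![-1, 0, -1, -1, -1, -1, -1, -1], true)] [] ![0, 0, 0, 0, 0, -1, -1, -1] ![0, 1, 1, 2, 2, 2, 1, 1] _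
  (by decide +kernel) (by decide +kernel) (by decide +kernel)
theorem GK80_3 : Cgr CartanMatrix.E₈ GK80L [] ![1, 2, 3, 4, 3, 2, 1, 0] := Cgr.com [] [(![1, 2, 2, 3, 3, 3, 2, 1], true)] [] [(![0, 1, 1, 2, 2, 2, 1, 1], true)] ![2, 2, 4, 5, 4, 3, 2, 1] ![-1, 0, -1, -1, -1, -1, -1, -1] _
  (by decide +kernel) (by decide +kernel) (by decide +kernel)
theorem GK80_4 : Cgr CartanMatrix.E₈ GK80L [] ![-1, -1, -2, -3, -3, -2, -2, -1] := Cgr.com [] [(![0, 1, 1, 2, 2, 2, 1, 1], true)] [] [(![-1, 0, -1, -1, -1, 0, 0, 0], false)] ![-1, 0, -1, -1, -1, -1, -1, -1] ![0, -1, -1, -2, -2, -1, -1, 0] _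
  (by decide +kernel) (by decide +kernel) (by decide +kernel)
theorem GK80_5 : Cgr CartanMatrix.E₈ GK80L [] ![1, 1, 1, 2, 2, 1, 1, 0] := Cgr.add _ _ _ GK80_0 GK80_1 (by decide +kernel)
theorem GK80_6 : Cgr CartanMatrix.E₈ GK80L [] ![1, 1, 1, 1, 1, 1, 0, 0] := Cgr.act _ [] [(![-1, 0, -1, -1, -1, 0, 0, 0], false)] ![0, -1, -1, -2, -2, -1, -1, 0] _ GK80_0 (by decide +kernel) (by decide +kernel)
theorem GK80_7 : Cgr CartanMatrix.E₈ GK80L [] ![0, 0, 0, 1, 1, 0, 0, 0] := Cgr.add _ _ _ GK80_1 GK80_2 (by decide +kernel)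
theorem GK80_8 : Cgr CartanMatrix.E₈ GK80L [] ![1, 1, 2, 3, 2, 1, 1, 0] := Cgr.add _ _ _ GK80_1 GK80_3 (by decide +kernel)
theorem GK80_9 : Cgr CartanMatrix.E₈ GK80L [] ![-1, -2, -3, -4, -4, -3, -2, -1] := Cgr.add _ _ _ GK80_1 GK80_4 (by decide +kernel)
theorem GK80_10 : Cgr CartanMatrix.E₈ GK80L [] ![1, 0, 0, 0, 0, 0, 0, 0] := Cgr.add _ _ _ GK80_1 GK80_6 (by decide +kernel)
theorem GK80_11 : Cgr CartanMatrix.E₈ GK80L [] ![1, 1, 1, 2, 2, 2, 2, 1] := Cgr.act _ [(![2, 2, 4, 5, 4, 3, 2, 1], true)] [] ![1, 2, 2, 3, 3, 3, 2, 1] _ GK80_1 (by decide +kernel) (by decide +kernel)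
theorem GK80_12 : Cgr CartanMatrix.E₈ GK80L [] ![-1, -2, -2, -3, -2, -2, -2, -1] := Cgr.act _ [(![-1, -1, -1, -2, -2, -2, -1, 0], true)] [] ![-1, -3, -3, -5, -4, -3, -2, -1] _ GK80_2 (by decide +kernel) (by decide +kernel)
theorem GK80_13 : Cgr CartanMatrix.E₈ GK80L [] ![0, 0, 0, 0, 0, 0, -1, 0] := Cgr.act _ [] [(![-1, 0, -1, -1, -1, 0, 0, 0], false)] ![0, -1, -1, -2, -2, -1, -1, 0] _ GK80_2 (by decide +kernel) (by decide +kernel)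
theorem GK80_14 : Cgr CartanMatrix.E₈ GK80L [] ![0, 0, 0, 0, -1, -1, -1, -1] := Cgr.add _ _ _ GK80_3 GK80_9 (by decide +kernel)
theorem GK80_15 : Cgr CartanMatrix.E₈ GK80L [] ![2, 3, 4, 6, 5, 4, 3, 1] := Cgr.add _ _ _ GK80_3 GK80_11 (by decide +kernel)
theorem GK80_16 : Cgr CartanMatrix.E₈ GK80L [] ![0, -1, 0, -1, -1, -1, -1, -1] := Cgr.act _ [(![-1, -1, -1, -2, -2, -2, -1, 0], true)] [] ![-1, -3, -3, -5, -4, -3, -2, -1] _ GK80_3 (by decide +kernel) (by decide +kernel)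
theorem GK80_17 : Cgr CartanMatrix.E₈ GK80L [] ![0, 0, -1, -1, -1, 0, 0, 0] := Cgr.add _ _ _ GK80_4 GK80_11 (by decide +kernel)
theorem GK80_18 : Cgr CartanMatrix.E₈ GK80L [] ![1, 2, 2, 3, 2, 2, 1, 0] := Cgr.add _ _ _ GK80_4 GK80_15 (by decide +kernel)
theorem GK80_19 : Cgr CartanMatrix.E₈ GK80L [] ![0, 0, 0, 0, 0, -1, 0, 0] := Cgr.act _ [] [(![-1, -3, -3, -5, -4, -3, -2, -1], true)] ![-1, -1, -1, -2, -2, -2, -1, 0] _ GK80_5 (by decide +kernel) (by decide +kernel)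
theorem GK80_20 : Cgr CartanMatrix.E₈ GK80L [] ![0, 0, 0, -1, -1, -1, -1, 0] := Cgr.act _ [] [(![-1, -3, -3, -5, -4, -3, -2, -1], true)] ![-1, -1, -1, -2, -2, -2, -1, 0] _ GK80_6 (by decide +kernel) (by decide +kernel)
theorem GK80_21 : Cgr CartanMatrix.E₈ GK80L [] ![0, 0, -1, 0, 0, 0, 0, 0] := Cgr.add _ _ _ GK80_7 GK80_17 (by decide +kernel)
theorem GK80_22 : Cgr CartanMatrix.E₈ GK80L [] ![1, 2, 3, 5, 4, 3, 2, 1] := Cgr.act _ [(![-1, 0, -1, -1, -1, -1, -1, -1], true)] [] ![0, 1, 1, 2, 2, 2, 1, 1] _ GK80_8 (by decide +kernel) (by decide +kernel)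
theorem GK80_23 : Cgr CartanMatrix.E₈ GK80L [] ![0, 0, 0, 1, 0, 0, 0, 0] := Cgr.add _ _ _ GK80_9 GK80_22 (by decide +kernel)
theorem GK80_24 : Cgr CartanMatrix.E₈ GK80L [] ![-1, -1, -2, -2, -2, -1, -1, 0] := Cgr.act _ [(![-1, 0, -1, -1, -1, -1, -1, -1], true)] [] ![0, 1, 1, 2, 2, 2, 1, 1] _ GK80_9 (by decide +kernel) (by decide +kernel)
theorem GK80_25 : Cgr CartanMatrix.E₈ GK80L [] ![0, 0, 0, 0, 0, 0, 1, 1] := Cgr.act _ [] [(![-1, -3, -3, -5, -4, -3, -2, -1], true)] ![-1, -1, -1, -2, -2, -2, -1, 0] _ GK80_11 (by decide +kernel) (by decide +kernel)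
theorem GK80_26 : Cgr CartanMatrix.E₈ GK80L [] ![0, 1, 0, 1, 1, 1, 1, 0] := Cgr.act _ [] [(![0, 1, 1, 2, 2, 2, 1, 1], true)] ![-1, 0, -1, -1, -1, -1, -1, -1] _ GK80_11 (by decide +kernel) (by decide +kernel)
theorem GK80_27 : Cgr CartanMatrix.E₈ GK80L [] ![0, 0, 0, 0, 1, 1, 0, 0] := Cgr.act _ [(![2, 2, 4, 5, 4, 3, 2, 1], true)] [] ![1, 2, 2, 3, 3, 3, 2, 1] _ GK80_12 (by decide +kernel) (by decide +kernel)
theorem GK80_28 : Cgr CartanMatrix.E₈ GK80L [] ![0, 0, 0, 0, 0, 0, 0, 1] := Cgr.add _ _ _ GK80_13 GK80_25 (by decide +kernel)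
theorem GK80_29 : Cgr CartanMatrix.E₈ GK80L [] ![0, 1, 1, 2, 1, 1, 0, 0] := Cgr.act _ [(![-1, 0, -1, -1, -1, -1, -1, -1], true)] [] ![0, 1, 1, 2, 2, 2, 1, 1] _ GK80_14 (by decide +kernel) (by decide +kernel)
theorem GK80_30 : Cgr CartanMatrix.E₈ GK80L [] ![0, -1, 0, -1, -1, -1, 0, 0] := Cgr.add _ _ _ GK80_16 GK80_25 (by decide +kernel)
theorem GK80_31 : Cgr CartanMatrix.E₈ GK80L [] ![0, 0, 0, 0, 0, 0, 0, -1] := Cgr.add _ _ _ GK80_16 GK80_26 (by decide +kernel)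
theorem GK80_32 : Cgr CartanMatrix.E₈ GK80L [] ![0, 0, 1, 1, 1, 1, 0, 0] := Cgr.act _ [(![-1, 0, -1, -1, -1, -1, -1, -1], true)] [] ![0, 1, 1, 2, 2, 2, 1, 1] _ GK80_16 (by decide +kernel) (by decide +kernel)
theorem GK80_33 : Cgr CartanMatrix.E₈ GK80L [] ![0, 0, 0, 0, 0, 1, 0, 0] := Cgr.add _ _ _ GK80_17 GK80_32 (by decide +kernel)
theorem GK80_34 : Cgr CartanMatrix.E₈ GK80L [] ![1, 1, 2, 2, 1, 1, 1, 0] := Cgr.add _ _ _ GK80_18 GK80_30 (by decide +kernel)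
theorem GK80_35 : Cgr CartanMatrix.E₈ GK80L [] ![0, 0, 0, 0, 1, 0, 0, 0] := Cgr.add _ _ _ GK80_19 GK80_27 (by decide +kernel)
theorem GK80_36 : Cgr CartanMatrix.E₈ GK80L [] ![0, 1, 0, 0, 0, 0, 0, 0] := Cgr.add _ _ _ GK80_20 GK80_26 (by decide +kernel)
theorem GK80_37 : Cgr CartanMatrix.E₈ GK80L [] ![0, 0, 0, -1, -1, -1, -1, -1] := Cgr.add _ _ _ GK80_20 GK80_31 (by decide +kernel)
theorem GK80_38 : Cgr CartanMatrix.E₈ GK80L [] ![0, -1, 0, 0, 0, 0, 0, 0] := Cgr.act _ [(![-1, -1, -1, -2, -2, -2, -1, 0], true)] [] ![-1, -3, -3, -5, -4, -3, -2, -1] _ GK80_22 (by decide +kernel) (by decide +kernel)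
theorem GK80_39 : Cgr CartanMatrix.E₈ GK80L [] ![0, 0, 0, 0, -1, 0, 0, 0] := Cgr.add _ _ _ GK80_24 GK80_34 (by decide +kernel)
theorem GK80_40 : Cgr CartanMatrix.E₈ GK80L [] ![0, 0, 0, 0, 0, 0, 1, 0] := Cgr.add _ _ _ GK80_25 GK80_31 (by decide +kernel)
theorem GK80_41 : Cgr CartanMatrix.E₈ GK80L [] ![0, 0, 0, -1, -1, -1, 0, 0] := Cgr.add _ _ _ GK80_25 GK80_37 (by decide +kernel)
theorem GK80_42 : Cgr CartanMatrix.E₈ GK80L [] ![-1, 0, -1, -1, -1, -1, 0, 0] := Cgr.act _ [] [(![0, 1, 1, 2, 2, 2, 1, 1], true)] ![-1, 0, -1, -1, -1, -1, -1, -1] _ GK80_25 (by decide +kernel) (by decide +kernel)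
theorem GK80_43 : Cgr CartanMatrix.E₈ GK80L [] ![0, 0, 0, -1, 0, 0, 0, 0] := Cgr.add _ _ _ GK80_27 GK80_41 (by decide +kernel)
theorem GK80_44 : Cgr CartanMatrix.E₈ GK80L [] ![0, 1, 1, 1, 1, 1, 0, 0] := Cgr.add _ _ _ GK80_29 GK80_43 (by decide +kernel)
theorem GK80_45 : Cgr CartanMatrix.E₈ GK80L [] ![0, 0, 1, 0, 0, 0, 0, 0] := Cgr.add _ _ _ GK80_30 GK80_44 (by decide +kernel)
theorem GK80_46 : Cgr CartanMatrix.E₈ GK80L [] ![-1, 0, 0, 0, 0, 0, 0, 0] := Cgr.add _ _ _ GK80_32 GK80_42 (by decide +kernel)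

theorem GK80_all (i : Fin 8) : Cgr CartanMatrix.E₈ GK80L [] (sr i) ∧ Cgr CartanMatrix.E₈ GK80L [] (-sr i) := by
  match i with
  | 0 => exact ⟨by rw [show (sr 0 : Fin 8 → ℤ) = ![1, 0, 0, 0, 0, 0, 0, 0] by decide +kernel]; exact GK80_10,
      by rw [show (-sr 0 : Fin 8 → ℤ) = ![-1, 0, 0, 0, 0, 0, 0, 0] by decide +kernel]; exact GK80_46⟩
  | 1 => exact ⟨by rw [show (sr 1 : Fin 8 → ℤ) = ![0, 1, 0, 0, 0, 0, 0, 0] by decide +kernel]; exact GK80_36,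
      by rw [show (-sr 1 : Fin 8 → ℤ) = ![0, -1, 0, 0, 0, 0, 0, 0] by decide +kernel]; exact GK80_38⟩
  | 2 => exact ⟨by rw [show (sr 2 : Fin 8 → ℤ) = ![0, 0, 1, 0, 0, 0, 0, 0] by decide +kernel]; exact GK80_45,
      by rw [show (-sr 2 : Fin 8 → ℤ) = ![0, 0, -1, 0, 0, 0, 0, 0] by decide +kernel]; exact GK80_21⟩
  | 3 => exact ⟨by rw [show (sr 3 : Fin 8 → ℤ) = ![0, 0, 0, 1, 0, 0, 0, 0] by decide +kernel]; exact GK80_23,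
      by rw [show (-sr 3 : Fin 8 → ℤ) = ![0, 0, 0, -1, 0, 0, 0, 0] by decide +kernel]; exact GK80_43⟩
  | 4 => exact ⟨by rw [show (sr 4 : Fin 8 → ℤ) = ![0, 0, 0, 0, 1, 0, 0, 0] by decide +kernel]; exact GK80_35,
      by rw [show (-sr 4 : Fin 8 → ℤ) = ![0, 0, 0, 0, -1, 0, 0, 0] by decide +kernel]; exact GK80_39⟩
  | 5 => exact ⟨by rw [show (sr 5 : Fin 8 → ℤ) = ![0, 0, 0, 0, 0, 1, 0, 0] by decide +kernel]; exact GK80_33,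
      by rw [show (-sr 5 : Fin 8 → ℤ) = ![0, 0, 0, 0, 0, -1, 0, 0] by decide +kernel]; exact GK80_19⟩
  | 6 => exact ⟨by rw [show (sr 6 : Fin 8 → ℤ) = ![0, 0, 0, 0, 0, 0, 1, 0] by decide +kernel]; exact GK80_40,
      by rw [show (-sr 6 : Fin 8 → ℤ) = ![0, 0, 0, 0, 0, 0, -1, 0] by decide +kernel]; exact GK80_13⟩
  | 7 => exact ⟨by rw [show (sr 7 : Fin 8 → ℤ) = ![0, 0, 0, 0, 0, 0, 0, 1] by decide +kernel]; exact GK80_28,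
      by rw [show (-sr 7 : Fin 8 → ℤ) = ![0, 0, 0, 0, 0, 0, 0, -1] by decide +kernel]; exact GK80_31⟩

theorem GK80 : Ct0 CartanMatrix.E₈ (0) := ⟨GK80l, GK80u, GK80v, rfl, by decide +kernel, by decide +kernel, by decide +kernel, by decide +kernel, GK80_all⟩

end Pool.Agent.EXC
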