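import Pool.Agent.helper16.EXG.Defs

/-!
# Project EXG (MP_561ff4_al): the certificate for `E₈`, type `-1` (computer generated)
-/

set_option autoImplicit false

open Finset

namespace Pool.Agent.EXC

def GK81l : List ((Fin 8 → ℤ) × (Fin 8 → ℤ)) := [(![-1, -1, -2, -3, -2, -1, 0, 0], ![0, 1, 1, 2, 1, 0, 0, 0]),
  (![1, 2, 2, 3, 2, 1, 1, 0], ![-1, -1, -2, -3, -2, -1, -1, 0]),
  (![-1, -1, -1, -2, -2, -1, -1, 0], ![0, -1, -1, -1, -1, -1, -1, -1]),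
  (![1, 1, 2, 2, 2, 1, 1, 0], ![0, 0, 0, 1, 1, 1, 0, 0])]
def GK81u : Fin 8 → ℤ := ![1, 0, 1, 1, 1, 1, 1, 1]
def GK81v : Fin 8 → ℤ := ![-1, -1, -2, -3, -3, -3, -2, -1]
def GK81L : List (List ((Fin 8 → ℤ) × Bool)) := (GK81l.map fun p => [(p.1, true), (p.2, true)]) ++ [[(GK81u, true), (GK81v, false)]]

theorem GK81_0 : Cgr CartanMatrix.E₈ GK81L [] ![-1, 0, -1, -1, -1, -1, -1, 0] := Cgr.com [(![-1, -1, -2, -3, -2, -1, 0, 0], true)] [] [(![1, 2, 2, 3, 2, 1, 1, 0], true)] [] ![0, 1, 1, 2, 1, 0, 0, 0] ![-1, -1, -2, -3, -2, -1, -1, 0] _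
  (by decide +kernel) (by decide +kernel) (by decide +kernel)
theorem GK81_1 : Cgr CartanMatrix.E₈ GK81L [] ![-1, -1, -2, -2, -2, -2, -2, -1] := Cgr.act _ [(![-1, -1, -1, -2, -2, -1, -1, 0], true)] [] ![0, -1, -1, -1, -1, -1, -1, -1] _ GK81_0 (by decide +kernel) (by decide +kernel)
theorem GK81_2 : Cgr CartanMatrix.E₈ GK81L [] ![0, 0, 0, 0, 0, 0, 0, 1] := Cgr.act _ [] [(![-1, -1, -2, -3, -3, -3, -2, -1], false)] ![1, 0, 1, 1, 1, 1, 1, 1] _ GK81_0 (by decide +kernel) (by decide +kernel)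
theorem GK81_3 : Cgr CartanMatrix.E₈ GK81L [] ![-2, -2, -4, -5, -4, -3, -2, -1] := Cgr.act _ [] [(![0, 1, 1, 2, 1, 0, 0, 0], true)] ![-1, -1, -2, -3, -2, -1, 0, 0] _ GK81_1 (by decide +kernel) (by decide +kernel)
theorem GK81_4 : Cgr CartanMatrix.E₈ GK81L [] ![0, 0, 0, 0, 0, -1, -1, -1] := Cgr.act _ [] [(![0, 0, 0, 1, 1, 1, 0, 0], true)] ![1, 1, 2, 2, 2, 1, 1, 0] _ GK81_1 (by decide +kernel) (by decide +kernel)
theorem GK81_5 : Cgr CartanMatrix.E₈ GK81L [] ![-1, -2, -3, -4, -3, -2, -1, 0] := Cgr.act _ [] [(![-1, -1, -2, -3, -3, -3, -2, -1], false)] ![1, 0, 1, 1, 1, 1, 1, 1] _ GK81_3 (by decide +kernel) (by decide +kernel)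
theorem GK81_6 : Cgr CartanMatrix.E₈ GK81L [] ![-1, -1, -2, -3, -2, -2, -1, -1] := Cgr.act _ [] [(![0, 1, 1, 2, 1, 0, 0, 0], true)] ![-1, -1, -2, -3, -2, -1, 0, 0] _ GK81_4 (by decide +kernel) (by decide +kernel)
theorem GK81_7 : Cgr CartanMatrix.E₈ GK81L [] ![-1, -1, -2, -3, -2, -2, -2, -1] := Cgr.act _ [(![1, 2, 2, 3, 2, 1, 1, 0], true)] [] ![-1, -1, -2, -3, -2, -1, -1, 0] _ GK81_4 (by decide +kernel) (by decide +kernel)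
theorem GK81_8 : Cgr CartanMatrix.E₈ GK81L [] ![-1, -1, -1, -2, -2, -2, -2, -1] := Cgr.act _ [] [(![0, -1, -1, -1, -1, -1, -1, -1], true)] ![-1, -1, -1, -2, -2, -1, -1, 0] _ GK81_4 (by decide +kernel) (by decide +kernel)
theorem GK81_9 : Cgr CartanMatrix.E₈ GK81L [] ![-1, -1, -2, -2, -1, -1, -1, -1] := Cgr.act _ [(![1, 1, 2, 2, 2, 1, 1, 0], true)] [] ![0, 0, 0, 1, 1, 1, 0, 0] _ GK81_6 (by decide +kernel) (by decide +kernel)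
theorem GK81_10 : Cgr CartanMatrix.E₈ GK81L [] ![0, -1, -1, -2, -1, -1, 0, 0] := Cgr.act _ [] [(![-1, -1, -2, -3, -3, -3, -2, -1], false)] ![1, 0, 1, 1, 1, 1, 1, 1] _ GK81_6 (by decide +kernel) (by decide +kernel)
theorem GK81_11 : Cgr CartanMatrix.E₈ GK81L [] ![0, -1, -1, -2, -1, -1, -1, 0] := Cgr.act _ [] [(![-1, -1, -2, -3, -3, -3, -2, -1], false)] ![1, 0, 1, 1, 1, 1, 1, 1] _ GK81_7 (by decide +kernel) (by decide +kernel)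
theorem GK81_12 : Cgr CartanMatrix.E₈ GK81L [] ![-2, -2, -3, -5, -4, -3, -2, -1] := Cgr.act _ [] [(![0, 1, 1, 2, 1, 0, 0, 0], true)] ![-1, -1, -2, -3, -2, -1, 0, 0] _ GK81_8 (by decide +kernel) (by decide +kernel)
theorem GK81_13 : Cgr CartanMatrix.E₈ GK81L [] ![-1, -1, -2, -2, -1, -1, -1, 0] := Cgr.add _ _ _ GK81_9 GK81_2 (by decide +kernel)
theorem GK81_14 : Cgr CartanMatrix.E₈ GK81L [] ![0, 0, 0, 0, 0, -1, 0, 0] := Cgr.act _ [(![-1, -1, -2, -3, -2, -1, 0, 0], true)] [] ![0, 1, 1, 2, 1, 0, 0, 0] _ GK81_10 (by decide +kernel) (by decide +kernel)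
theorem GK81_15 : Cgr CartanMatrix.E₈ GK81L [] ![0, -1, -1, -1, 0, 0, 0, 0] := Cgr.act _ [(![1, 1, 2, 2, 2, 1, 1, 0], true)] [] ![0, 0, 0, 1, 1, 1, 0, 0] _ GK81_10 (by decide +kernel) (by decide +kernel)
theorem GK81_16 : Cgr CartanMatrix.E₈ GK81L [] ![1, 1, 1, 1, 1, 0, 0, 0] := Cgr.act _ [] [(![-1, -1, -2, -3, -2, -1, -1, 0], true)] ![1, 2, 2, 3, 2, 1, 1, 0] _ GK81_11 (by decide +kernel) (by decide +kernel)
theorem GK81_17 : Cgr CartanMatrix.E₈ GK81L [] ![-2, -3, -4, -6, -5, -4, -3, -2] := Cgr.act _ [(![-1, -1, -1, -2, -2, -1, -1, 0], true)] [] ![0, -1, -1, -1, -1, -1, -1, -1] _ GK81_12 (by decide +kernel) (by decide +kernel)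
theorem GK81_18 : Cgr CartanMatrix.E₈ GK81L [] ![0, 0, 0, 0, 1, 0, 0, 0] := Cgr.act _ [] [(![0, 0, 0, 1, 1, 1, 0, 0], true)] ![1, 1, 2, 2, 2, 1, 1, 0] _ GK81_13 (by decide +kernel) (by decide +kernel)
theorem GK81_19 : Cgr CartanMatrix.E₈ GK81L [] ![0, 0, 0, 1, 1, 0, 0, 0] := Cgr.act _ [(![1, 1, 2, 2, 2, 1, 1, 0], true)] [] ![0, 0, 0, 1, 1, 1, 0, 0] _ GK81_14 (by decide +kernel) (by decide +kernel)
theorem GK81_20 : Cgr CartanMatrix.E₈ GK81L [] ![-1, -2, -2, -3, -2, -1, -1, 0] := Cgr.act _ [] [(![0, -1, -1, -1, -1, -1, -1, -1], true)] ![-1, -1, -1, -2, -2, -1, -1, 0] _ GK81_15 (by decide +kernel) (by decide +kernel)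
theorem GK81_21 : Cgr CartanMatrix.E₈ GK81L [] ![1, 1, 1, 2, 2, 1, 0, 0] := Cgr.act _ [(![1, 1, 2, 2, 2, 1, 1, 0], true)] [] ![0, 0, 0, 1, 1, 1, 0, 0] _ GK81_16 (by decide +kernel) (by decide +kernel)
theorem GK81_22 : Cgr CartanMatrix.E₈ GK81L [] ![-1, -3, -3, -5, -4, -3, -2, -1] := Cgr.act _ [] [(![-1, -1, -2, -3, -3, -3, -2, -1], false)] ![1, 0, 1, 1, 1, 1, 1, 1] _ GK81_17 (by decide +kernel) (by decide +kernel)
theorem GK81_23 : Cgr CartanMatrix.E₈ GK81L [] ![-1, -1, -1, -1, -1, -1, -1, 0] := Cgr.act _ [] [(![0, -1, -1, -1, -1, -1, -1, -1], true)] ![-1, -1, -1, -2, -2, -1, -1, 0] _ GK81_19 (by decide +kernel) (by decide +kernel)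
theorem GK81_24 : Cgr CartanMatrix.E₈ GK81L [] ![0, -1, 0, -1, 0, 0, 0, 0] := Cgr.act _ [] [(![0, 0, 0, 1, 1, 1, 0, 0], true)] ![1, 1, 2, 2, 2, 1, 1, 0] _ GK81_20 (by decide +kernel) (by decide +kernel)
theorem GK81_25 : Cgr CartanMatrix.E₈ GK81L [] ![0, 0, 0, 0, 0, 0, -1, 0] := Cgr.act _ [] [(![0, -1, -1, -1, -1, -1, -1, -1], true)] ![-1, -1, -1, -2, -2, -1, -1, 0] _ GK81_21 (by decide +kernel) (by decide +kernel)
theorem GK81_26 : Cgr CartanMatrix.E₈ GK81L [] ![-2, -2, -3, -4, -3, -2, -1, 0] := Cgr.act _ [] [(![0, 1, 1, 2, 1, 0, 0, 0], true)] ![-1, -1, -2, -3, -2, -1, 0, 0] _ GK81_23 (by decide +kernel) (by decide +kernel)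
theorem GK81_27 : Cgr CartanMatrix.E₈ GK81L [] ![0, 0, 1, 1, 1, 0, 0, 0] := Cgr.act _ [] [(![0, 0, 0, 1, 1, 1, 0, 0], true)] ![1, 1, 2, 2, 2, 1, 1, 0] _ GK81_23 (by decide +kernel) (by decide +kernel)
theorem GK81_28 : Cgr CartanMatrix.E₈ GK81L [] ![1, 2, 2, 3, 2, 1, 0, 0] := Cgr.act _ [] [(![-1, -1, -2, -3, -2, -1, -1, 0], true)] ![1, 2, 2, 3, 2, 1, 1, 0] _ GK81_25 (by decide +kernel) (by decide +kernel)
theorem GK81_29 : Cgr CartanMatrix.E₈ GK81L [] ![-2, -3, -4, -5, -4, -3, -2, -1] := Cgr.act _ [(![-1, -1, -1, -2, -2, -1, -1, 0], true)] [] ![0, -1, -1, -1, -1, -1, -1, -1] _ GK81_26 (by decide +kernel) (by decide +kernel)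
theorem GK81_30 : Cgr CartanMatrix.E₈ GK81L [] ![-1, -1, -1, -2, -1, -1, 0, 0] := Cgr.act _ [] [(![0, 1, 1, 2, 1, 0, 0, 0], true)] ![-1, -1, -2, -3, -2, -1, 0, 0] _ GK81_27 (by decide +kernel) (by decide +kernel)
theorem GK81_31 : Cgr CartanMatrix.E₈ GK81L [] ![0, 1, 0, 0, 0, 0, 0, 0] := Cgr.act _ [] [(![0, 1, 1, 2, 1, 0, 0, 0], true)] ![-1, -1, -2, -3, -2, -1, 0, 0] _ GK81_28 (by decide +kernel) (by decide +kernel)
theorem GK81_32 : Cgr CartanMatrix.E₈ GK81L [] ![-1, -2, -2, -3, -2, -2, -1, -1] := Cgr.act _ [] [(![0, 0, 0, 1, 1, 1, 0, 0], true)] ![1, 1, 2, 2, 2, 1, 1, 0] _ GK81_29 (by decide +kernel) (by decide +kernel)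
theorem GK81_33 : Cgr CartanMatrix.E₈ GK81L [] ![-1, -1, -1, -1, 0, 0, 0, 0] := Cgr.act _ [(![1, 1, 2, 2, 2, 1, 1, 0], true)] [] ![0, 0, 0, 1, 1, 1, 0, 0] _ GK81_30 (by decide +kernel) (by decide +kernel)
theorem GK81_34 : Cgr CartanMatrix.E₈ GK81L [] ![-1, -1, -2, -3, -2, -1, -1, 0] := Cgr.add _ _ _ GK81_31 GK81_20 (by decide +kernel)
theorem GK81_35 : Cgr CartanMatrix.E₈ GK81L [] ![0, 0, 0, -1, 0, 0, 0, 0] := Cgr.add _ _ _ GK81_31 GK81_24 (by decide +kernel)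
theorem GK81_36 : Cgr CartanMatrix.E₈ GK81L [] ![-2, -3, -3, -5, -4, -3, -2, -1] := Cgr.act _ [] [(![0, -1, -1, -1, -1, -1, -1, -1], true)] ![-1, -1, -1, -2, -2, -1, -1, 0] _ GK81_32 (by decide +kernel) (by decide +kernel)
theorem GK81_37 : Cgr CartanMatrix.E₈ GK81L [] ![1, 2, 2, 3, 2, 1, 1, 0] := Cgr.one [] [(![-1, -1, -2, -3, -2, -1, -1, 0], true)] ![1, 2, 2, 3, 2, 1, 1, 0] (by decide +kernel) (by decide +kernel)
  (show ∀ p ∈ [(![-1, -1, -2, -3, -2, -1, -1, 0], true)], Cgr CartanMatrix.E₈ GK81L [] p.1 from List.forall_mem_cons.2 ⟨GK81_34, List.forall_mem_nil _⟩)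
theorem GK81_38 : Cgr CartanMatrix.E₈ GK81L [] ![-1, -2, -3, -4, -3, -2, -2, -1] := Cgr.act _ [(![-1, -1, -1, -2, -2, -1, -1, 0], true)] [] ![0, -1, -1, -1, -1, -1, -1, -1] _ GK81_34 (by decide +kernel) (by decide +kernel)
theorem GK81_39 : Cgr CartanMatrix.E₈ GK81L [] ![0, 0, 0, 0, 1, 1, 0, 0] := Cgr.act _ [(![1, 1, 2, 2, 2, 1, 1, 0], true)] [] ![0, 0, 0, 1, 1, 1, 0, 0] _ GK81_35 (by decide +kernel) (by decide +kernel)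
theorem GK81_40 : Cgr CartanMatrix.E₈ GK81L [] ![-1, -1, -1, -2, -2, -2, -1, -1] := Cgr.add _ _ _ GK81_36 GK81_37 (by decide +kernel)
theorem GK81_41 : Cgr CartanMatrix.E₈ GK81L [] ![0, -1, -1, -2, -2, -2, -1, -1] := Cgr.add _ _ _ GK81_37 GK81_22 (by decide +kernel)
theorem GK81_42 : Cgr CartanMatrix.E₈ GK81L [] ![0, 1, 1, 2, 1, 0, 0, 0] := Cgr.add _ _ _ GK81_37 GK81_23 (by decide +kernel)
theorem GK81_43 : Cgr CartanMatrix.E₈ GK81L [] ![1, 1, 2, 2, 2, 1, 1, 0] := Cgr.add _ _ _ GK81_37 GK81_24 (by decide +kernel)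
theorem GK81_44 : Cgr CartanMatrix.E₈ GK81L [] ![-1, -1, -2, -2, -2, -2, -1, -1] := Cgr.add _ _ _ GK81_37 GK81_29 (by decide +kernel)
theorem GK81_45 : Cgr CartanMatrix.E₈ GK81L [] ![1, 2, 2, 3, 3, 2, 1, 0] := Cgr.add _ _ _ GK81_37 GK81_39 (by decide +kernel)
theorem GK81_46 : Cgr CartanMatrix.E₈ GK81L [] ![1, 2, 2, 4, 3, 2, 1, 0] := Cgr.act _ [(![1, 1, 2, 2, 2, 1, 1, 0], true)] [] ![0, 0, 0, 1, 1, 1, 0, 0] _ GK81_37 (by decide +kernel) (by decide +kernel)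
theorem GK81_47 : Cgr CartanMatrix.E₈ GK81L [] ![2, 2, 3, 4, 3, 2, 2, 1] := Cgr.act _ [] [(![-1, -1, -2, -3, -3, -3, -2, -1], false)] ![1, 0, 1, 1, 1, 1, 1, 1] _ GK81_37 (by decide +kernel) (by decide +kernel)
theorem GK81_48 : Cgr CartanMatrix.E₈ GK81L [] ![0, -1, -1, -2, -1, -1, -1, -1] := Cgr.add _ _ _ GK81_38 GK81_43 (by decide +kernel)
theorem GK81_49 : Cgr CartanMatrix.E₈ GK81L [] ![1, 0, 0, 0, 0, 0, 0, 0] := Cgr.add _ _ _ GK81_38 GK81_47 (by decide +kernel)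
theorem GK81_50 : Cgr CartanMatrix.E₈ GK81L [] ![2, 2, 3, 4, 4, 3, 2, 1] := Cgr.add _ _ _ GK81_39 GK81_47 (by decide +kernel)
theorem GK81_51 : Cgr CartanMatrix.E₈ GK81L [] ![-1, -1, -1, -1, -1, -1, -1, -1] := Cgr.act _ [(![1, 1, 2, 2, 2, 1, 1, 0], true)] [] ![0, 0, 0, 1, 1, 1, 0, 0] _ GK81_40 (by decide +kernel) (by decide +kernel)
theorem GK81_52 : Cgr CartanMatrix.E₈ GK81L [] ![0, -1, 0, -1, -1, -1, 0, 0] := Cgr.act _ [] [(![-1, -1, -2, -3, -3, -3, -2, -1], false)] ![1, 0, 1, 1, 1, 1, 1, 1] _ GK81_40 (by decide +kernel) (by decide +kernel)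
theorem GK81_53 : Cgr CartanMatrix.E₈ GK81L [] ![-1, -2, -2, -4, -4, -3, -2, -1] := Cgr.act _ [] [(![0, -1, -1, -1, -1, -1, -1, -1], true)] ![-1, -1, -1, -2, -2, -1, -1, 0] _ GK81_41 (by decide +kernel) (by decide +kernel)
theorem GK81_54 : Cgr CartanMatrix.E₈ GK81L [] ![-1, -1, -2, -3, -2, -1, 0, 0] := Cgr.one [] [(![0, 1, 1, 2, 1, 0, 0, 0], true)] ![-1, -1, -2, -3, -2, -1, 0, 0] (by decide +kernel) (by decide +kernel)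
  (show ∀ p ∈ [(![0, 1, 1, 2, 1, 0, 0, 0], true)], Cgr CartanMatrix.E₈ GK81L [] p.1 from List.forall_mem_cons.2 ⟨GK81_42, List.forall_mem_nil _⟩)
theorem GK81_55 : Cgr CartanMatrix.E₈ GK81L [] ![1, 1, 2, 3, 2, 1, 1, 1] := Cgr.act _ [] [(![-1, -1, -2, -3, -3, -3, -2, -1], false)] ![1, 0, 1, 1, 1, 1, 1, 1] _ GK81_42 (by decide +kernel) (by decide +kernel)
theorem GK81_56 : Cgr CartanMatrix.E₈ GK81L [] ![1, 1, 2, 3, 3, 2, 1, 0] := Cgr.act _ [(![1, 1, 2, 2, 2, 1, 1, 0], true)] [] ![0, 0, 0, 1, 1, 1, 0, 0] _ GK81_43 (by decide +kernel) (by decide +kernel)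
theorem GK81_57 : Cgr CartanMatrix.E₈ GK81L [] ![0, 0, 0, 1, 1, 1, 0, 0] := Cgr.one [(![1, 1, 2, 2, 2, 1, 1, 0], true)] [] ![0, 0, 0, 1, 1, 1, 0, 0] (by decide +kernel) (by decide +kernel)
  (show ∀ p ∈ [(![1, 1, 2, 2, 2, 1, 1, 0], true)], Cgr CartanMatrix.E₈ GK81L [] p.1 from List.forall_mem_cons.2 ⟨GK81_43, List.forall_mem_nil _⟩)
theorem GK81_58 : Cgr CartanMatrix.E₈ GK81L [] ![-2, -2, -3, -4, -4, -3, -2, -1] := Cgr.act _ [] [(![0, -1, -1, -1, -1, -1, -1, -1], true)] ![-1, -1, -1, -2, -2, -1, -1, 0] _ GK81_44 (by decide +kernel) (by decide +kernel)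
theorem GK81_59 : Cgr CartanMatrix.E₈ GK81L [] ![0, 0, 0, -1, -1, -1, -1, -1] := Cgr.add _ _ _ GK81_45 GK81_53 (by decide +kernel)
theorem GK81_60 : Cgr CartanMatrix.E₈ GK81L [] ![0, 0, -1, 0, 0, 0, 0, 0] := Cgr.add _ _ _ GK81_46 GK81_5 (by decide +kernel)
theorem GK81_61 : Cgr CartanMatrix.E₈ GK81L [] ![0, 1, 0, 1, 1, 1, 1, 0] := Cgr.add _ _ _ GK81_46 GK81_54 (by decide +kernel)
theorem GK81_62 : Cgr CartanMatrix.E₈ GK81L [] ![0, 1, 1, 2, 1, 1, 0, 0] := Cgr.act _ [] [(![0, -1, -1, -1, -1, -1, -1, -1], true)] ![-1, -1, -1, -2, -2, -1, -1, 0] _ GK81_46 (by decide +kernel) (by decide +kernel)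
theorem GK81_63 : Cgr CartanMatrix.E₈ GK81L [] ![1, 0, 1, 1, 1, 1, 1, 1] := Cgr.add _ _ _ GK81_47 GK81_20 (by decide +kernel)
theorem GK81_64 : Cgr CartanMatrix.E₈ GK81L [] ![1, 1, 2, 3, 3, 2, 2, 1] := Cgr.add _ _ _ GK81_47 GK81_33 (by decide +kernel)
theorem GK81_65 : Cgr CartanMatrix.E₈ GK81L [] ![0, 0, 0, 0, -1, -1, 0, 0] := Cgr.add _ _ _ GK81_47 GK81_58 (by decide +kernel)
theorem GK81_66 : Cgr CartanMatrix.E₈ GK81L [] ![-1, -2, -2, -4, -3, -2, -2, -1] := Cgr.act _ [] [(![0, -1, -1, -1, -1, -1, -1, -1], true)] ![-1, -1, -1, -2, -2, -1, -1, 0] _ GK81_48 (by decide +kernel) (by decide +kernel)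
theorem GK81_67 : Cgr CartanMatrix.E₈ GK81L [] ![1, 1, 1, 2, 1, 1, 0, 0] := Cgr.add _ _ _ GK81_49 GK81_62 (by decide +kernel)
theorem GK81_68 : Cgr CartanMatrix.E₈ GK81L [] ![2, 3, 4, 6, 5, 4, 2, 1] := Cgr.add _ _ _ GK81_50 GK81_62 (by decide +kernel)
theorem GK81_69 : Cgr CartanMatrix.E₈ GK81L [] ![0, -1, 0, 0, 0, 0, 0, 0] := Cgr.add _ _ _ GK81_51 GK81_63 (by decide +kernel)
theorem GK81_70 : Cgr CartanMatrix.E₈ GK81L [] ![0, 0, 0, 0, 0, 0, 1, 0] := Cgr.add _ _ _ GK81_52 GK81_61 (by decide +kernel)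
theorem GK81_71 : Cgr CartanMatrix.E₈ GK81L [] ![1, 0, 1, 1, 0, 0, 0, 0] := Cgr.add _ _ _ GK81_52 GK81_67 (by decide +kernel)
theorem GK81_72 : Cgr CartanMatrix.E₈ GK81L [] ![-1, -1, -2, -3, -3, -2, -1, -1] := Cgr.add _ _ _ GK81_53 GK81_61 (by decide +kernel)
theorem GK81_73 : Cgr CartanMatrix.E₈ GK81L [] ![1, 1, 2, 2, 1, 1, 0, 0] := Cgr.add _ _ _ GK81_53 GK81_68 (by decide +kernel)
theorem GK81_74 : Cgr CartanMatrix.E₈ GK81L [] ![-1, 0, -1, -1, -1, 0, 0, 0] := Cgr.add _ _ _ GK81_54 GK81_62 (by decide +kernel)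
theorem GK81_75 : Cgr CartanMatrix.E₈ GK81L [] ![0, -1, -1, -2, -2, -1, 0, 0] := Cgr.add _ _ _ GK81_54 GK81_71 (by decide +kernel)
theorem GK81_76 : Cgr CartanMatrix.E₈ GK81L [] ![0, 0, 0, -1, -1, 0, 0, 0] := Cgr.add _ _ _ GK81_54 GK81_73 (by decide +kernel)
theorem GK81_77 : Cgr CartanMatrix.E₈ GK81L [] ![0, 1, 1, 2, 1, 1, 1, 1] := Cgr.add _ _ _ GK81_55 GK81_74 (by decide +kernel)
theorem GK81_78 : Cgr CartanMatrix.E₈ GK81L [] ![0, 0, 0, 0, 0, 0, 0, -1] := Cgr.add _ _ _ GK81_56 GK81_72 (by decide +kernel)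
theorem GK81_79 : Cgr CartanMatrix.E₈ GK81L [] ![0, 0, 0, 1, 0, 0, 0, 0] := Cgr.add _ _ _ GK81_57 GK81_65 (by decide +kernel)
theorem GK81_80 : Cgr CartanMatrix.E₈ GK81L [] ![0, 0, 0, 0, 0, 1, 0, 0] := Cgr.add _ _ _ GK81_57 GK81_76 (by decide +kernel)
theorem GK81_81 : Cgr CartanMatrix.E₈ GK81L [] ![0, 1, 1, 1, 0, 0, 0, 0] := Cgr.add _ _ _ GK81_59 GK81_77 (by decide +kernel)
theorem GK81_82 : Cgr CartanMatrix.E₈ GK81L [] ![-1, 0, 0, 0, 0, 0, 0, 0] := Cgr.add _ _ _ GK81_62 GK81_30 (by decide +kernel)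
theorem GK81_83 : Cgr CartanMatrix.E₈ GK81L [] ![0, 0, 0, 0, -1, 0, 0, 0] := Cgr.add _ _ _ GK81_62 GK81_75 (by decide +kernel)
theorem GK81_84 : Cgr CartanMatrix.E₈ GK81L [] ![1, 2, 3, 4, 3, 2, 2, 1] := Cgr.add _ _ _ GK81_64 GK81_81 (by decide +kernel)
theorem GK81_85 : Cgr CartanMatrix.E₈ GK81L [] ![0, 0, 1, 0, 0, 0, 0, 0] := Cgr.add _ _ _ GK81_66 GK81_84 (by decide +kernel)

theorem GK81_all (i : Fin 8) : Cgr CartanMatrix.E₈ GK81L [] (sr i) ∧ Cgr CartanMatrix.E₈ GK81L [] (-sr i) := by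
  match i with
  | 0 => exact ⟨by rw [show (sr 0 : Fin 8 → ℤ) = ![1, 0, 0, 0, 0, 0, 0, 0] by decide +kernel]; exact GK81_49,
      by rw [show (-sr 0 : Fin 8 → ℤ) = ![-1, 0, 0, 0, 0, 0, 0, 0] by decide +kernel]; exact GK81_82⟩
  | 1 => exact ⟨by rw [show (sr 1 : Fin 8 → ℤ) = ![0, 1, 0, 0, 0, 0, 0, 0] by decide +kernel]; exact GK81_31,
      by rw [show (-sr 1 : Fin 8 → ℤ) = ![0, -1, 0, 0, 0, 0, 0, 0] by decide +kernel]; exact GK81_69⟩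
  | 2 => exact ⟨by rw [show (sr 2 : Fin 8 → ℤ) = ![0, 0, 1, 0, 0, 0, 0, 0] by decide +kernel]; exact GK81_85,
      by rw [show (-sr 2 : Fin 8 → ℤ) = ![0, 0, -1, 0, 0, 0, 0, 0] by decide +kernel]; exact GK81_60⟩
  | 3 => exact ⟨by rw [show (sr 3 : Fin 8 → ℤ) = ![0, 0, 0, 1, 0, 0, 0, 0] by decide +kernel]; exact GK81_79,
      by rw [show (-sr 3 : Fin 8 → ℤ) = ![0, 0, 0, -1, 0, 0, 0, 0] by decide +kernel]; exact GK81_35⟩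
  | 4 => exact ⟨by rw [show (sr 4 : Fin 8 → ℤ) = ![0, 0, 0, 0, 1, 0, 0, 0] by decide +kernel]; exact GK81_18,
      by rw [show (-sr 4 : Fin 8 → ℤ) = ![0, 0, 0, 0, -1, 0, 0, 0] by decide +kernel]; exact GK81_83⟩
  | 5 => exact ⟨by rw [show (sr 5 : Fin 8 → ℤ) = ![0, 0, 0, 0, 0, 1, 0, 0] by decide +kernel]; exact GK81_80,
      by rw [show (-sr 5 : Fin 8 → ℤ) = ![0, 0, 0, 0, 0, -1, 0, 0] by decide +kernel]; exact GK81_14⟩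
  | 6 => exact ⟨by rw [show (sr 6 : Fin 8 → ℤ) = ![0, 0, 0, 0, 0, 0, 1, 0] by decide +kernel]; exact GK81_70,
      by rw [show (-sr 6 : Fin 8 → ℤ) = ![0, 0, 0, 0, 0, 0, -1, 0] by decide +kernel]; exact GK81_25⟩
  | 7 => exact ⟨by rw [show (sr 7 : Fin 8 → ℤ) = ![0, 0, 0, 0, 0, 0, 0, 1] by decide +kernel]; exact GK81_2,
      by rw [show (-sr 7 : Fin 8 → ℤ) = ![0, 0, 0, 0, 0, 0, 0, -1] by decide +kernel]; exact GK81_78⟩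

theorem GK81 : Ct0 CartanMatrix.E₈ (-1) := ⟨GK81l, GK81u, GK81v, rfl, by decide +kernel, by decide +kernel, by decide +kernel, by decide +kernel, GK81_all⟩

end Pool.Agent.EXC
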