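import Pool.Agent.helper16.EXG.Defs

/-!
# Project EXG (MP_561ff4_al): the certificate for `E₈`, type `-2` (computer generated)
-/

set_option autoImplicit false

open Finset

namespace Pool.Agent.EXC

def GK82L : List (List ((Fin 8 → ℤ) × Bool)) := [[(![2, 2, 3, 4, 3, 2, 2, 1], true), (![-2, -3, -4, -6, -5, -3, -2, -1], true)],
  [(![0, 0, 0, 0, 0, 0, 0, 1], true), (![0, -1, -1, -2, -1, -1, -1, -1], true), (![2, 2, 3, 4, 3, 2, 1, 1], true)],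
  [(![0, 1, 0, 1, 1, 1, 1, 1], true), (![-1, -2, -2, -4, -4, -3, -2, -1], true), (![-2, -2, -3, -5, -4, -3, -2, -1], true)],
  [(![1, 1, 1, 2, 2, 2, 1, 1], false), (![-1, -1, -1, -1, -1, -1, -1, -1], true), (![1, 2, 2, 4, 3, 3, 2, 1], true)]]
def GK82a : Fin 8 → ℤ := ![2, 3, 4, 6, 5, 4, 3, 2]

theorem GK82_0 : Cgr CartanMatrix.E₈ GK82L [GK82a] ![0, -1, -1, -2, -2, -1, -1, 0] := Cgr.com [(![2, 2, 3, 4, 3, 2, 2, 1], true)] [] [(![0, 0, 0, 0, 0, 0, 0, 1], true), (![0, -1, -1, -2, -1, -1, -1, -1], true)] [] ![-2, -3, -4, -6, -5, -3, -2, -1] ![2, 2, 3, 4, 3, 2, 1, 1] _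
  (by decide +kernel) (by decide +kernel) (by decide +kernel)
theorem GK82_1 : Cgr CartanMatrix.E₈ GK82L [GK82a] ![0, 0, 0, -1, -1, -1, 0, 0] := Cgr.com [] [(![-2, -3, -4, -6, -5, -3, -2, -1], true)] [(![0, 1, 0, 1, 1, 1, 1, 1], true), (![-1, -2, -2, -4, -4, -3, -2, -1], true)] [] ![2, 2, 3, 4, 3, 2, 2, 1] ![-2, -2, -3, -5, -4, -3, -2, -1] _
  (by decide +kernel) (by decide +kernel) (by decide +kernel)
theorem GK82_2 : Cgr CartanMatrix.E₈ GK82L [GK82a] ![-1, -2, -2, -3, -3, -2, -2, -1] := Cgr.act _ [(![1, 1, 1, 2, 2, 2, 1, 1], false)] [(![1, 2, 2, 4, 3, 3, 2, 1], true)] ![-1, -1, -1, -1, -1, -1, -1, -1] _ GK82_0 (by decide +kernel) (by decide +kernel)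
theorem GK82_3 : Cgr CartanMatrix.E₈ GK82L [GK82a] ![-1, -2, -2, -4, -4, -3, -2, -1] := Cgr.add _ _ _ GK82_1 GK82_2 (by decide +kernel)
theorem GK82_4 : Cgr CartanMatrix.E₈ GK82L [GK82a] ![1, 1, 2, 3, 2, 2, 1, 1] := Cgr.yy _ GK82a _ GK82_2 (by decide +kernel)
theorem GK82_5 : Cgr CartanMatrix.E₈ GK82L [GK82a] ![-1, -1, -2, -2, -2, -1, -1, 0] := Cgr.act _ [] [(![-1, -2, -2, -4, -4, -3, -2, -1], true), (![-2, -2, -3, -5, -4, -3, -2, -1], true)] ![0, 1, 0, 1, 1, 1, 1, 1] _ GK82_2 (by decide +kernel) (by decide +kernel)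
theorem GK82_6 : Cgr CartanMatrix.E₈ GK82L [GK82a] ![-1, -1, -1, -2, -2, -1, -1, 0] := Cgr.act _ [(![0, 1, 0, 1, 1, 1, 1, 1], true), (![-1, -2, -2, -4, -4, -3, -2, -1], true)] [] ![-2, -2, -3, -5, -4, -3, -2, -1] _ GK82_4 (by decide +kernel) (by decide +kernel)
theorem GK82_7 : Cgr CartanMatrix.E₈ GK82L [GK82a] ![1, 1, 1, 2, 1, 1, 1, 1] := Cgr.act _ [] [(![-2, -3, -4, -6, -5, -3, -2, -1], true)] ![2, 2, 3, 4, 3, 2, 2, 1] _ GK82_5 (by decide +kernel) (by decide +kernel)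
theorem GK82_8 : Cgr CartanMatrix.E₈ GK82L [GK82a] ![-1, -2, -3, -4, -3, -2, -2, -1] := Cgr.act _ [(![0, 0, 0, 0, 0, 0, 0, 1], true)] [(![2, 2, 3, 4, 3, 2, 1, 1], true)] ![0, -1, -1, -2, -1, -1, -1, -1] _ GK82_5 (by decide +kernel) (by decide +kernel)
theorem GK82_9 : Cgr CartanMatrix.E₈ GK82L [GK82a] ![-1, -2, -2, -4, -3, -2, -2, -1] := Cgr.act _ [(![0, 0, 0, 0, 0, 0, 0, 1], true)] [(![2, 2, 3, 4, 3, 2, 1, 1], true)] ![0, -1, -1, -2, -1, -1, -1, -1] _ GK82_6 (by decide +kernel) (by decide +kernel)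
theorem GK82_10 : Cgr CartanMatrix.E₈ GK82L [GK82a] ![1, 0, 0, 0, 0, 0, 0, 0] := Cgr.act _ [(![0, 0, 0, 0, 0, 0, 0, 1], true)] [(![2, 2, 3, 4, 3, 2, 1, 1], true)] ![0, -1, -1, -2, -1, -1, -1, -1] _ GK82_7 (by decide +kernel) (by decide +kernel)
theorem GK82_11 : Cgr CartanMatrix.E₈ GK82L [GK82a] ![0, 0, 0, 1, 0, 0, 0, 0] := Cgr.act _ [(![1, 1, 1, 2, 2, 2, 1, 1], false)] [(![1, 2, 2, 4, 3, 3, 2, 1], true)] ![-1, -1, -1, -1, -1, -1, -1, -1] _ GK82_7 (by decide +kernel) (by decide +kernel)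
theorem GK82_12 : Cgr CartanMatrix.E₈ GK82L [GK82a] ![1, 1, 1, 2, 2, 2, 1, 1] := Cgr.yy _ GK82a _ GK82_8 (by decide +kernel)
theorem GK82_13 : Cgr CartanMatrix.E₈ GK82L [GK82a] ![1, 1, 2, 2, 2, 2, 1, 1] := Cgr.yy _ GK82a _ GK82_9 (by decide +kernel)
theorem GK82_14 : Cgr CartanMatrix.E₈ GK82L [GK82a] ![-1, -1, -2, -3, -2, -1, -1, 0] := Cgr.act _ [] [(![-1, -2, -2, -4, -4, -3, -2, -1], true), (![-2, -2, -3, -5, -4, -3, -2, -1], true)] ![0, 1, 0, 1, 1, 1, 1, 1] _ GK82_9 (by decide +kernel) (by decide +kernel)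
theorem GK82_15 : Cgr CartanMatrix.E₈ GK82L [GK82a] ![0, 0, 0, 0, 0, 1, 0, 0] := Cgr.act _ [(![1, 1, 1, 2, 2, 2, 1, 1], false), (![-1, -1, -1, -1, -1, -1, -1, -1], true)] [] ![1, 2, 2, 4, 3, 3, 2, 1] _ GK82_9 (by decide +kernel) (by decide +kernel)
theorem GK82_16 : Cgr CartanMatrix.E₈ GK82L [GK82a] ![0, -1, -1, -1, -1, -1, -1, -1] := Cgr.act _ [(![1, 1, 1, 2, 2, 2, 1, 1], false)] [(![1, 2, 2, 4, 3, 3, 2, 1], true)] ![-1, -1, -1, -1, -1, -1, -1, -1] _ GK82_10 (by decide +kernel) (by decide +kernel)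
theorem GK82_17 : Cgr CartanMatrix.E₈ GK82L [GK82a] ![0, 0, 0, 0, -1, -1, 0, 0] := Cgr.add _ _ _ GK82_11 GK82_1 (by decide +kernel)
theorem GK82_18 : Cgr CartanMatrix.E₈ GK82L [GK82a] ![0, 0, 0, 1, 1, 1, 0, 0] := Cgr.act _ [(![1, 1, 1, 2, 2, 2, 1, 1], false)] [(![1, 2, 2, 4, 3, 3, 2, 1], true)] ![-1, -1, -1, -1, -1, -1, -1, -1] _ GK82_12 (by decide +kernel) (by decide +kernel)
theorem GK82_19 : Cgr CartanMatrix.E₈ GK82L [GK82a] ![0, 0, 1, 1, 1, 1, 0, 0] := Cgr.act _ [(![1, 1, 1, 2, 2, 2, 1, 1], false)] [(![1, 2, 2, 4, 3, 3, 2, 1], true)] ![-1, -1, -1, -1, -1, -1, -1, -1] _ GK82_13 (by decide +kernel) (by decide +kernel)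
theorem GK82_20 : Cgr CartanMatrix.E₈ GK82L [GK82a] ![-2, -2, -3, -4, -3, -2, -2, -1] := Cgr.act _ [(![1, 1, 1, 2, 2, 2, 1, 1], false)] [(![1, 2, 2, 4, 3, 3, 2, 1], true)] ![-1, -1, -1, -1, -1, -1, -1, -1] _ GK82_14 (by decide +kernel) (by decide +kernel)
theorem GK82_21 : Cgr CartanMatrix.E₈ GK82L [GK82a] ![0, 0, 0, 0, -1, 0, 0, 0] := Cgr.add _ _ _ GK82_15 GK82_17 (by decide +kernel)
theorem GK82_22 : Cgr CartanMatrix.E₈ GK82L [GK82a] ![2, 2, 3, 4, 3, 3, 2, 1] := Cgr.act _ [] [(![-2, -3, -4, -6, -5, -3, -2, -1], true)] ![2, 2, 3, 4, 3, 2, 2, 1] _ GK82_15 (by decide +kernel) (by decide +kernel)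
theorem GK82_23 : Cgr CartanMatrix.E₈ GK82L [GK82a] ![0, -1, -1, -2, -2, -2, -1, -1] := Cgr.add _ _ _ GK82_16 GK82_1 (by decide +kernel)
theorem GK82_24 : Cgr CartanMatrix.E₈ GK82L [GK82a] ![2, 2, 3, 5, 4, 3, 2, 1] := Cgr.yy _ GK82a _ GK82_16 (by decide +kernel)
theorem GK82_25 : Cgr CartanMatrix.E₈ GK82L [GK82a] ![0, 0, 1, 0, 0, 0, 0, 0] := Cgr.add _ _ _ GK82_19 GK82_1 (by decide +kernel)
theorem GK82_26 : Cgr CartanMatrix.E₈ GK82L [GK82a] ![-2, -2, -3, -5, -4, -3, -2, -1] := Cgr.add _ _ _ GK82_20 GK82_1 (by decide +kernel)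
theorem GK82_27 : Cgr CartanMatrix.E₈ GK82L [GK82a] ![0, 1, 1, 2, 2, 2, 1, 1] := Cgr.yy _ GK82a _ GK82_20 (by decide +kernel)
theorem GK82_28 : Cgr CartanMatrix.E₈ GK82L [GK82a] ![0, 0, 0, 0, 0, 0, -1, 0] := Cgr.act _ [(![0, 0, 0, 0, 0, 0, 0, 1], true), (![0, -1, -1, -2, -1, -1, -1, -1], true)] [] ![2, 2, 3, 4, 3, 2, 1, 1] _ GK82_20 (by decide +kernel) (by decide +kernel)
theorem GK82_29 : Cgr CartanMatrix.E₈ GK82L [GK82a] ![1, 1, 2, 3, 2, 2, 1, 0] := Cgr.act _ [(![1, 1, 1, 2, 2, 2, 1, 1], false)] [(![1, 2, 2, 4, 3, 3, 2, 1], true)] ![-1, -1, -1, -1, -1, -1, -1, -1] _ GK82_22 (by decide +kernel) (by decide +kernel)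
theorem GK82_30 : Cgr CartanMatrix.E₈ GK82L [GK82a] ![2, 2, 3, 4, 3, 2, 2, 1] := Cgr.yy _ GK82a _ GK82_23 (by decide +kernel)
theorem GK82_31 : Cgr CartanMatrix.E₈ GK82L [GK82a] ![0, -1, -1, -2, -2, -2, -1, 0] := Cgr.act _ [] [(![0, -1, -1, -2, -1, -1, -1, -1], true), (![2, 2, 3, 4, 3, 2, 1, 1], true)] ![0, 0, 0, 0, 0, 0, 0, 1] _ GK82_23 (by decide +kernel) (by decide +kernel)
theorem GK82_32 : Cgr CartanMatrix.E₈ GK82L [GK82a] ![0, 0, -1, -1, -1, -1, 0, 0] := Cgr.act _ [] [(![-1, -2, -2, -4, -4, -3, -2, -1], true), (![-2, -2, -3, -5, -4, -3, -2, -1], true)] ![0, 1, 0, 1, 1, 1, 1, 1] _ GK82_23 (by decide +kernel) (by decide +kernel)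
theorem GK82_33 : Cgr CartanMatrix.E₈ GK82L [GK82a] ![0, -1, -1, -1, -1, 0, 0, 0] := Cgr.act _ [(![2, 2, 3, 4, 3, 2, 2, 1], true)] [] ![-2, -3, -4, -6, -5, -3, -2, -1] _ GK82_24 (by decide +kernel) (by decide +kernel)
theorem GK82_34 : Cgr CartanMatrix.E₈ GK82L [GK82a] ![0, 1, 1, 1, 1, 1, 1, 1] := Cgr.act _ [] [(![-1, -2, -2, -4, -4, -3, -2, -1], true), (![-2, -2, -3, -5, -4, -3, -2, -1], true)] ![0, 1, 0, 1, 1, 1, 1, 1] _ GK82_25 (by decide +kernel) (by decide +kernel)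
theorem GK82_35 : Cgr CartanMatrix.E₈ GK82L [GK82a] ![-1, -1, -1, -2, -2, -1, -1, -1] := Cgr.add _ _ _ GK82_26 GK82_29 (by decide +kernel)
theorem GK82_36 : Cgr CartanMatrix.E₈ GK82L [GK82a] ![-2, -3, -4, -6, -5, -3, -2, -1] := Cgr.add _ _ _ GK82_26 GK82_33 (by decide +kernel)
theorem GK82_37 : Cgr CartanMatrix.E₈ GK82L [GK82a] ![0, 1, 0, 1, 1, 1, 1, 1] := Cgr.one [] [(![-1, -2, -2, -4, -4, -3, -2, -1], true), (![-2, -2, -3, -5, -4, -3, -2, -1], true)] ![0, 1, 0, 1, 1, 1, 1, 1] (by decide +kernel) (by decide +kernel)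
  (show ∀ p ∈ [(![-1, -2, -2, -4, -4, -3, -2, -1], true), (![-2, -2, -3, -5, -4, -3, -2, -1], true)], Cgr CartanMatrix.E₈ GK82L [GK82a] p.1 from List.forall_mem_cons.2 ⟨GK82_3, List.forall_mem_cons.2 ⟨GK82_26, List.forall_mem_nil _⟩⟩)
theorem GK82_38 : Cgr CartanMatrix.E₈ GK82L [GK82a] ![2, 3, 4, 6, 5, 4, 3, 2] := Cgr.add _ _ _ GK82_27 GK82_30 (by decide +kernel)
theorem GK82_39 : Cgr CartanMatrix.E₈ GK82L [GK82a] ![0, 0, 0, 0, 0, 0, 0, 1] := Cgr.add _ _ _ GK82_27 GK82_31 (by decide +kernel)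
theorem GK82_40 : Cgr CartanMatrix.E₈ GK82L [GK82a] ![0, 0, 0, 0, 1, 1, 0, 0] := Cgr.act _ [(![0, 0, 0, 0, 0, 0, 0, 1], true)] [(![2, 2, 3, 4, 3, 2, 1, 1], true)] ![0, -1, -1, -2, -1, -1, -1, -1] _ GK82_27 (by decide +kernel) (by decide +kernel)
theorem GK82_41 : Cgr CartanMatrix.E₈ GK82L [GK82a] ![2, 2, 3, 4, 3, 2, 1, 1] := Cgr.add _ _ _ GK82_28 GK82_30 (by decide +kernel)
theorem GK82_42 : Cgr CartanMatrix.E₈ GK82L [GK82a] ![0, -1, -1, -2, -2, -1, 0, 0] := Cgr.add _ _ _ GK82_30 GK82_36 (by decide +kernel)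
theorem GK82_43 : Cgr CartanMatrix.E₈ GK82L [GK82a] ![2, 2, 3, 4, 4, 3, 2, 1] := Cgr.add _ _ _ GK82_30 GK82_40 (by decide +kernel)
theorem GK82_44 : Cgr CartanMatrix.E₈ GK82L [GK82a] ![0, 0, -1, 0, 0, 0, 0, 0] := Cgr.add _ _ _ GK82_32 GK82_18 (by decide +kernel)
theorem GK82_45 : Cgr CartanMatrix.E₈ GK82L [GK82a] ![-1, -1, -2, -3, -3, -2, -1, -1] := Cgr.add _ _ _ GK82_32 GK82_35 (by decide +kernel)
theorem GK82_46 : Cgr CartanMatrix.E₈ GK82L [GK82a] ![0, 0, 0, -1, 0, 0, 0, 0] := Cgr.act _ [(![0, 0, 0, 0, 0, 0, 0, 1], true)] [(![2, 2, 3, 4, 3, 2, 1, 1], true)] ![0, -1, -1, -2, -1, -1, -1, -1] _ GK82_34 (by decide +kernel) (by decide +kernel)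
theorem GK82_47 : Cgr CartanMatrix.E₈ GK82L [GK82a] ![-1, 0, -1, 0, 0, 0, 0, 0] := Cgr.act _ [(![1, 1, 1, 2, 2, 2, 1, 1], false)] [(![1, 2, 2, 4, 3, 3, 2, 1], true)] ![-1, -1, -1, -1, -1, -1, -1, -1] _ GK82_37 (by decide +kernel) (by decide +kernel)
theorem GK82_48 : Cgr CartanMatrix.E₈ GK82L [GK82a] ![1, 2, 3, 5, 4, 3, 2, 1] := Cgr.act _ [(![1, 1, 1, 2, 2, 2, 1, 1], false)] [(![1, 2, 2, 4, 3, 3, 2, 1], true)] ![-1, -1, -1, -1, -1, -1, -1, -1] _ GK82_38 (by decide +kernel) (by decide +kernel)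
theorem GK82_49 : Cgr CartanMatrix.E₈ GK82L [GK82a] ![0, -1, -1, -2, -1, -1, -1, -1] := Cgr.one [(![0, 0, 0, 0, 0, 0, 0, 1], true)] [(![2, 2, 3, 4, 3, 2, 1, 1], true)] ![0, -1, -1, -2, -1, -1, -1, -1] (by decide +kernel) (by decide +kernel)
  (show ∀ p ∈ [(![0, 0, 0, 0, 0, 0, 0, 1], true), (![2, 2, 3, 4, 3, 2, 1, 1], true)], Cgr CartanMatrix.E₈ GK82L [GK82a] p.1 from List.forall_mem_cons.2 ⟨GK82_39, List.forall_mem_cons.2 ⟨GK82_41, List.forall_mem_nil _⟩⟩)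
theorem GK82_50 : Cgr CartanMatrix.E₈ GK82L [GK82a] ![-1, -1, -1, -1, -1, -1, -1, 0] := Cgr.act _ [(![1, 1, 1, 2, 2, 2, 1, 1], false)] [(![1, 2, 2, 4, 3, 3, 2, 1], true)] ![-1, -1, -1, -1, -1, -1, -1, -1] _ GK82_39 (by decide +kernel) (by decide +kernel)
theorem GK82_51 : Cgr CartanMatrix.E₈ GK82L [GK82a] ![1, 2, 2, 4, 3, 2, 1, 1] := Cgr.add _ _ _ GK82_41 GK82_47 (by decide +kernel)
theorem GK82_52 : Cgr CartanMatrix.E₈ GK82L [GK82a] ![-1, -1, -2, -2, -2, -1, 0, 0] := Cgr.add _ _ _ GK82_42 GK82_47 (by decide +kernel)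
theorem GK82_53 : Cgr CartanMatrix.E₈ GK82L [GK82a] ![1, 1, 2, 3, 2, 2, 2, 1] := Cgr.add _ _ _ GK82_42 GK82_48 (by decide +kernel)
theorem GK82_54 : Cgr CartanMatrix.E₈ GK82L [GK82a] ![1, 1, 2, 3, 3, 2, 1, 1] := Cgr.add _ _ _ GK82_43 GK82_50 (by decide +kernel)
theorem GK82_55 : Cgr CartanMatrix.E₈ GK82L [GK82a] ![1, 1, 2, 3, 3, 2, 1, 0] := Cgr.act _ [(![1, 1, 1, 2, 2, 2, 1, 1], false)] [(![1, 2, 2, 4, 3, 3, 2, 1], true)] ![-1, -1, -1, -1, -1, -1, -1, -1] _ GK82_43 (by decide +kernel) (by decide +kernel)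
theorem GK82_56 : Cgr CartanMatrix.E₈ GK82L [GK82a] ![0, 1, 0, 1, 0, 0, 0, 0] := Cgr.add _ _ _ GK82_45 GK82_51 (by decide +kernel)
theorem GK82_57 : Cgr CartanMatrix.E₈ GK82L [GK82a] ![0, 0, 0, 0, 0, 0, 0, -1] := Cgr.add _ _ _ GK82_45 GK82_55 (by decide +kernel)
theorem GK82_58 : Cgr CartanMatrix.E₈ GK82L [GK82a] ![0, 1, 0, 0, 0, 0, 0, 0] := Cgr.add _ _ _ GK82_46 GK82_56 (by decide +kernel)
theorem GK82_59 : Cgr CartanMatrix.E₈ GK82L [GK82a] ![-1, 0, -1, -1, -1, -1, 0, 0] := Cgr.add _ _ _ GK82_47 GK82_1 (by decide +kernel)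
theorem GK82_60 : Cgr CartanMatrix.E₈ GK82L [GK82a] ![-1, 0, 0, 0, 0, 0, 0, 0] := Cgr.add _ _ _ GK82_47 GK82_25 (by decide +kernel)
theorem GK82_61 : Cgr CartanMatrix.E₈ GK82L [GK82a] ![1, 2, 3, 4, 3, 2, 2, 1] := Cgr.add _ _ _ GK82_48 GK82_1 (by decide +kernel)
theorem GK82_62 : Cgr CartanMatrix.E₈ GK82L [GK82a] ![1, 1, 2, 3, 2, 1, 1, 1] := Cgr.add _ _ _ GK82_48 GK82_31 (by decide +kernel)
theorem GK82_63 : Cgr CartanMatrix.E₈ GK82L [GK82a] ![1, 0, 1, 1, 1, 1, 1, 0] := Cgr.add _ _ _ GK82_49 GK82_53 (by decide +kernel)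
theorem GK82_64 : Cgr CartanMatrix.E₈ GK82L [GK82a] ![-1, -1, -2, -3, -2, -2, -1, -1] := Cgr.add _ _ _ GK82_49 GK82_59 (by decide +kernel)
theorem GK82_65 : Cgr CartanMatrix.E₈ GK82L [GK82a] ![1, 1, 2, 2, 2, 1, 1, 0] := Cgr.add _ _ _ GK82_49 GK82_61 (by decide +kernel)
theorem GK82_66 : Cgr CartanMatrix.E₈ GK82L [GK82a] ![1, 0, 1, 1, 1, 0, 0, 0] := Cgr.add _ _ _ GK82_49 GK82_62 (by decide +kernel)
theorem GK82_67 : Cgr CartanMatrix.E₈ GK82L [GK82a] ![0, -1, 0, 0, 0, 0, 0, 0] := Cgr.add _ _ _ GK82_50 GK82_63 (by decide +kernel)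
theorem GK82_68 : Cgr CartanMatrix.E₈ GK82L [GK82a] ![0, 0, 0, 0, 0, 0, 1, 0] := Cgr.add _ _ _ GK82_52 GK82_65 (by decide +kernel)
theorem GK82_69 : Cgr CartanMatrix.E₈ GK82L [GK82a] ![0, 0, 0, 0, 1, 0, 0, 0] := Cgr.add _ _ _ GK82_54 GK82_64 (by decide +kernel)
theorem GK82_70 : Cgr CartanMatrix.E₈ GK82L [GK82a] ![0, 0, 0, 0, 0, -1, 0, 0] := Cgr.add _ _ _ GK82_59 GK82_66 (by decide +kernel)

theorem GK82_all (i : Fin 8) : Cgr CartanMatrix.E₈ GK82L [GK82a] (sr i) ∧ Cgr CartanMatrix.E₈ GK82L [GK82a] (-sr i) := by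
  match i with
  | 0 => exact ⟨by rw [show (sr 0 : Fin 8 → ℤ) = ![1, 0, 0, 0, 0, 0, 0, 0] by decide +kernel]; exact GK82_10,
      by rw [show (-sr 0 : Fin 8 → ℤ) = ![-1, 0, 0, 0, 0, 0, 0, 0] by decide +kernel]; exact GK82_60⟩
  | 1 => exact ⟨by rw [show (sr 1 : Fin 8 → ℤ) = ![0, 1, 0, 0, 0, 0, 0, 0] by decide +kernel]; exact GK82_58,
      by rw [show (-sr 1 : Fin 8 → ℤ) = ![0, -1, 0, 0, 0, 0, 0, 0] by decide +kernel]; exact GK82_67⟩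
  | 2 => exact ⟨by rw [show (sr 2 : Fin 8 → ℤ) = ![0, 0, 1, 0, 0, 0, 0, 0] by decide +kernel]; exact GK82_25,
      by rw [show (-sr 2 : Fin 8 → ℤ) = ![0, 0, -1, 0, 0, 0, 0, 0] by decide +kernel]; exact GK82_44⟩
  | 3 => exact ⟨by rw [show (sr 3 : Fin 8 → ℤ) = ![0, 0, 0, 1, 0, 0, 0, 0] by decide +kernel]; exact GK82_11,
      by rw [show (-sr 3 : Fin 8 → ℤ) = ![0, 0, 0, -1, 0, 0, 0, 0] by decide +kernel]; exact GK82_46⟩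
  | 4 => exact ⟨by rw [show (sr 4 : Fin 8 → ℤ) = ![0, 0, 0, 0, 1, 0, 0, 0] by decide +kernel]; exact GK82_69,
      by rw [show (-sr 4 : Fin 8 → ℤ) = ![0, 0, 0, 0, -1, 0, 0, 0] by decide +kernel]; exact GK82_21⟩
  | 5 => exact ⟨by rw [show (sr 5 : Fin 8 → ℤ) = ![0, 0, 0, 0, 0, 1, 0, 0] by decide +kernel]; exact GK82_15,
      by rw [show (-sr 5 : Fin 8 → ℤ) = ![0, 0, 0, 0, 0, -1, 0, 0] by decide +kernel]; exact GK82_70⟩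
  | 6 => exact ⟨by rw [show (sr 6 : Fin 8 → ℤ) = ![0, 0, 0, 0, 0, 0, 1, 0] by decide +kernel]; exact GK82_68,
      by rw [show (-sr 6 : Fin 8 → ℤ) = ![0, 0, 0, 0, 0, 0, -1, 0] by decide +kernel]; exact GK82_28⟩
  | 7 => exact ⟨by rw [show (sr 7 : Fin 8 → ℤ) = ![0, 0, 0, 0, 0, 0, 0, 1] by decide +kernel]; exact GK82_39,
      by rw [show (-sr 7 : Fin 8 → ℤ) = ![0, 0, 0, 0, 0, 0, 0, -1] by decide +kernel]; exact GK82_57⟩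

theorem GK82 : Ct2 CartanMatrix.E₈ ![2, 3, 4, 6, 5, 4, 3, 2] := by
  refine ⟨GK82L, rfl, ?_, ?_, GK82_all⟩
  · exact List.forall_mem_cons.2 ⟨⟨![2, 2, 3, 4, 3, 2, 2, 1], ![-2, -3, -4, -6, -5, -3, -2, -1], true, true, [], rfl, by decide +kernel, by decide +kernel, by decide +kernel, by decide +kernel, by decide +kernel, Or.inl rfl⟩,
      List.forall_mem_cons.2 ⟨⟨![0, 0, 0, 0, 0, 0, 0, 1], ![0, -1, -1, -2, -1, -1, -1, -1], true, true, [(![2, 2, 3, 4, 3, 2, 1, 1], true)], rfl, by decide +kernel, by decide +kernel, by decide +kernel, by decide +kernel, by decide +kernel, Or.inr ⟨![2, 2, 3, 4, 3, 2, 1, 1], true, rfl, by decide +kernel, Or.inr (by decide +kernel)⟩⟩,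
      List.forall_mem_cons.2 ⟨⟨![0, 1, 0, 1, 1, 1, 1, 1], ![-1, -2, -2, -4, -4, -3, -2, -1], true, true, [(![-2, -2, -3, -5, -4, -3, -2, -1], true)], rfl, by decide +kernel, by decide +kernel, by decide +kernel, by decide +kernel, by decide +kernel, Or.inr ⟨![-2, -2, -3, -5, -4, -3, -2, -1], true, rfl, by decide +kernel, Or.inl (by decide +kernel)⟩⟩,
      List.forall_mem_cons.2 ⟨⟨![1, 1, 1, 2, 2, 2, 1, 1], ![-1, -1, -1, -1, -1, -1, -1, -1], false, true, [(![1, 2, 2, 4, 3, 3, 2, 1], true)], rfl, by decide +kernel, by decide +kernel, by decide +kernel, by decide +kernel, by decide +kernel, Or.inr ⟨![1, 2, 2, 4, 3, 3, 2, 1], true, rfl, by decide +kernel, Or.inr (by decide +kernel)⟩⟩,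
      List.forall_mem_nil _⟩⟩⟩⟩
  · exact ⟨[], [(![-1, -1, -1, -1, -1, -1, -1, -1], true), (![1, 2, 2, 4, 3, 3, 2, 1], true)], ![1, 1, 1, 2, 2, 2, 1, 1], by decide +kernel, by decide +kernel, by decide +kernel⟩

end Pool.Agent.EXC
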