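import Pool.Agent.helper17.EXC.All
import Pool.Agent.helper16.EXG.All5
import Pool.Agent.helper16.EXG.GK60
import Pool.Agent.helper16.EXG.GK61
import Pool.Agent.helper16.EXG.GK62
import Pool.Agent.helper16.EXG.GK70
import Pool.Agent.helper16.EXG.GK71
import Pool.Agent.helper16.EXG.GK72
import Pool.Agent.helper16.EXG.GK80
import Pool.Agent.helper16.EXG.GK81
import Pool.Agent.helper16.EXG.GK82

/-!
# Project EXG (MP_561ff4_al): ten conjugates of any automorphism `x ≠ 1` generate `E₆(q)`, `E₇(q)`, `E₈(q)`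
-/

set_option autoImplicit false

namespace Pool.Agent.EXC

/-- ten conjugates of `x` (by inner automorphisms) generate a group which contains all inner automorphisms; `β_r(x) ≤ 10` for every prime `r`
which divides the order of the group -/
def Gn10 (G : Type) [Group G] : Prop := ∀ x : MulAut G, x ≠ 1 →
  (∃ h : Fin 10 → G, (MulAut.conj : G →* MulAut G).range ≤ Subgroup.closure (Set.range fun i => MulAut.conj (h i) * x * (MulAut.conj (h i))⁻¹)) ∧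
  ∀ r : ℕ, r.Prime → r ∣ Nat.card G → 10 ∈ Pool.Agent.GS.CSet r x

theorem Gn10_of {n : ℕ} (C : Matrix (Fin n) (Fin n) ℤ) [IsC C] (j0 : Fin n) (θ : Fin n → ℤ) (δ : Fin 5 → Fin n) (h : IsE C j0 θ δ)
    (h0 : Ct0 C 0) (h1 : Ct0 C (-1)) (h2 : Ct2 C θ) (F : Type) [Field F] [Finite F] : Gn10 (EG C F) :=
  fun x hx => A5.g_GFN n C F j0 θ δ h h0 h1 h2 x hx

theorem Gen10 (F : Type) [Field F] [Finite F] :
    Gn10 (Chev CartanMatrix.E₆ F) ∧ Gn10 (Chev CartanMatrix.E₇ F) ∧ Gn10 (Chev CartanMatrix.E₈ F) :=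
  ⟨Gn10_of _ _ _ _ f_DE6.2 GK60 GK61 GK62 F, Gn10_of _ _ _ _ f_DE7.2 GK70 GK71 GK72 F, Gn10_of _ _ _ _ f_DE8.2 GK80 GK81 GK82 F⟩

/-- `β_r(x) ≤ 10` -/
theorem Gen10_beta {G : Type} [Group G] (h : Gn10 G) (x : MulAut G) (hx : x ≠ 1) (r : ℕ) (hr : r.Prime) (hd : r ∣ Nat.card G) :
    ∃ β, IsLeast (Pool.Agent.GS.CSet r x) β ∧ β ≤ 10 := by
  have hk := (h x hx).2 r hr hd
  have hl : IsLeast (Pool.Agent.GS.CSet r x) (sInf (Pool.Agent.GS.CSet r x)) :=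
    ⟨Nat.sInf_mem ⟨10, hk⟩, fun k hk => Nat.sInf_le hk⟩
  exact ⟨_, hl, hl.2 hk⟩

end Pool.Agent.EXC
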