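import Pool.Agent.helper16.EXG.Defs

/-!
# Project EXG (MP_561ff4_al): ten conjugates of any automorphism `x ≠ 1` generate `E₆(q)`, `E₇(q)`, `E₈(q)`. The rows

Owner: helper16. RULES. Row `XXX`: file `Pool/Agent/<seat>/EXG/XXX.lean`, `import Pool.Agent.helper16.EXG.Spec`, `set_option autoImplicit false`,
`open Finset`, `namespace Pool.Agent.EXC`, theorem line as in the lock note (other rows of this file only as hypotheses `(hXXX : XXX_stmt)`; you may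
drop or add some), auxiliary lemmas prefixed `XXX_`. No straight double quotes, no convert / congr!. Land, note DONE + path, one line to helper16.
FREE (theorems): all rows of project EXC as `f_XXX` (`f_XAU`, `f_EXF`, `f_ACT`, `f_COL`, `f_NRF`, `f_DOM`, `f_GEN`, `f_NBR`, `f_FIX`, `f_ARA`, ..; statements in
`Pool/Agent/helper17/EXC/Spec.lean`), `k_XGS`, `k_CNJ`, `k_TPR`, `k_YCL`, `k_GR2` (`Pool/Agent/helper16/EXG/Defs.lean`; statements in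
`Pool/Agent/helper32/EXC/Spec11.lean`), and `Pool/Agent/helper17/EXC/Basic.lean` (`sg_neg_left`, `sg_add_left`, `sg_sq`, `sg_self`, `sg_comm_odd`, `ip_add_left`, ..).
`XG C α t` is the root element `x_α(t)` (`k_XGS`: `IsX C (E C α) t (XG C α t)`, it is in `GE C F`, its inverse is `XG C α (-t)`). `[g, h] = g h g⁻¹ h⁻¹`.

PLAN. `y = x(t) t⁻¹ = x_a(1) x_b(1)`, `(a, b)` of type `0`, `-1` or `-2` (`k_YCL`). FIVE conjugates of `y` generate `G`: types `0`, `-1`: the conjugates are the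
`x_u(s) x_v(s')` with `(u, v) = m`; type `-2`: `y`, and `h_i y h_i⁻¹` with `y (h_i y⁻¹ h_i⁻¹) = [y, h_i] = x_f(s) x_c(s')` or `x_f(s) x_c(s') x_g(s'')`. A commutator
of two such products with only one negative inner product is one root element; explicit certificates (`Ct0`, `Ct2`, generated by computer, rows of helper16) give all
`x_{±α_i}(1)`, so all `x_α(1)`, and one `x_v(t)` with `F = F_p(t)`, so everything.
-/

set_option autoImplicit false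

open Finset

namespace Pool.Agent.EXC

/-! ## A. Root elements -/

/-- **GXC** (short-medium). Calculus of the root elements. `k_XGS`; two linear maps `XG ..` with the same values are equal (`LinearEquiv.ext`). Sum: `f_XAU` (1) (`Xtr (E α)` from `f_EXF`), `XG α 0 = 1`: `xe a 0 v = v`. Commuting: `f_COL`, second part.
`(α, β) = -1`: `g = XG α s` is an automorphism (`f_EXF`), `g x_β(t) g⁻¹ = x_{g E β}(t)` (`f_XAU` (3)), `g E β = E β + (s ε) E (α+β)` (`f_ACT`), `(β, α+β) = 1`: `f_COL`, first part, with `b = 1`, `c = s ε`: `x_{g E β}(t) = x_β(t) x_{α+β}(s ε t)`. -/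
def GXC_stmt : Prop := ∀ (n : ℕ) (C : Matrix (Fin n) (Fin n) ℤ) [IsC C] (F : Type) [Field F],
  (∀ α, ip C α α = 2 → ∃ β, ip C β β = 2 ∧ ip C α β = -1) → ∀ α β, ip C α α = 2 → ip C β β = 2 → ∀ s t : F,
  XG C α (s + t) = XG C α s * XG C α t ∧ XG C α (0 : F) = 1 ∧ (0 ≤ ip C α β → XG C α s * XG C β t = XG C β t * XG C α s) ∧
  (ip C α β = -1 → XG C α s * XG C β t * (XG C α s)⁻¹ = XG C β t * XG C (α + β) (s * t * (sg C α β : F)))

/-- **GCJ** (short). Conjugation. `g x_α(t) g⁻¹ = x_{g E α}(t) = x_{c E β}(t) = x_β(c t)` (`f_EXF`: `Au C g`; `f_XAU` (3), (4)). -/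
def GCJ_stmt : Prop := ∀ (n : ℕ) (C : Matrix (Fin n) (Fin n) ℤ) [IsC C] (F : Type) [Field F],
  (∀ α, ip C α α = 2 → ∃ β, ip C β β = 2 ∧ ip C α β = -1) → ∀ g ∈ GE C F, ∀ α β, ip C α α = 2 → ip C β β = 2 → ∀ c : F,
  g (E C α) = c • (E C β : Lm C F) → ∀ t : F, g * XG C α t * g⁻¹ = XG C β (c * t)

/-- **GNR** (short-medium). The reflection, with an explicit element: this is the proof of `NRF` (`Pool/Agent/helper49/EXC/NRF.lean`). -/
def GNR_stmt : Prop := ∀ (n : ℕ) (C : Matrix (Fin n) (Fin n) ℤ) [IsC C] (F : Type) [Field F],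
  (∀ α, ip C α α = 2 → ∃ β, ip C β β = 2 ∧ ip C α β = -1) → ∀ i : Fin n, ∀ γ, ip C γ γ = 2 →
  ∃ s : ℤ, (s = 1 ∨ s = -1) ∧ (XG C (sr i) (1 : F) * XG C (-sr i) 1 * XG C (sr i) 1 : Lm C F ≃ₗ[F] Lm C F) (E C γ) = (s : F) • (E C (rf C i γ) : Lm C F)

/-- **GGN** (medium). uses: GXC, GCJ, GNR. Generation. Let `n_i = x_{α_i}(1) x_{-α_i}(1) x_{α_i}(1) ∈ H`. If `x_α(s) ∈ H` then `n_i x_α(s) n_i⁻¹ = x_{s_i α}(± s) ∈ H` (GNR, GCJ), so `x_{s_i α}(s) ∈ H` (inverse). By `f_DOM` (`J = univ`, `hE.con`) from `x_α(s) ∈ H` for one root `α` we get it for all roots.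
First part: start with `α = α_{δ 0}`, `s = 1`. Second part: let `A` be the set of the `s` with `x_α(s) ∈ H` for all roots `α`: closed under `+`, `-` (GXC), `1 ∈ A`, closed under products: `s, t ∈ A`, `(α, β) = -1`: `x_α(s) x_β(t) x_α(s)⁻¹ x_β(t)⁻¹ = x_{α+β}(± s t)` (GXC; `x_{α+β}` commutes with `x_β`).
`t ∈ A`, so all powers, so `A = F`; the generators of `GE` are the `x_α(s)` (an element with `IsX (E α) s` is `XG α s`). -/
def GGN_stmt : Prop := ∀ (n : ℕ) (C : Matrix (Fin n) (Fin n) ℤ) [IsC C] (F : Type) [Field F] (j0 : Fin n) (θ : Fin n → ℤ) (δ : Fin 5 → Fin n),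
  IsE C j0 θ δ → ∀ H : Subgroup (Lm C F ≃ₗ[F] Lm C F), (∀ i, XG C (sr i) 1 ∈ H ∧ XG C (-sr i) 1 ∈ H) →
  (∀ α, ip C α α = 2 → XG C α 1 ∈ H) ∧ ∀ (v : Fin n → ℤ) (t : F), ip C v v = 2 → XG C v t ∈ H → (∀ u : F, u ≠ 0 → ∃ k : ℕ, u = t ^ k) → GE C F ≤ H

/-! ## B. The closure -/

/-- **GSN** (medium). uses: GXC. Soundness of the closure. Induction on `Cgr`; `r` is a root (`add_root_iff`: `u + v` is a root if `(u, v) = -1`), and `XG C r 1 ∈ H`. In all the products the entries of the form `(·, false)` are `x_α(t)` and only commute.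
`com`: `P = p₁ x_u(1) p₂`, `Q = q₁ x_v(1) q₂`. Every factor of `p₁, p₂` commutes with `Q` (products `≥ 0` with all entries of `Q`), `x_u(1)` commutes with `q₁, q₂`; `x_u(1) x_v(1) x_u(1)⁻¹ = x_v(1) z`, `z = x_w(± 1)`, which commutes with all factors of `P`, `Q` (`(u, w) = (v, w) = 1`). So
`P Q P⁻¹ = p₁ (x_u(1) Q x_u(1)⁻¹) p₁⁻¹ = p₁ (Q z) p₁⁻¹ = Q z`, `z = Q⁻¹ P Q P⁻¹ ∈ H`, `x_w(-1)⁻¹ = x_w(1)`. `act`: the same with `P = x_r(1)`. `add`: the same with two single elements. `one`: `x_u(1) = p₁⁻¹ P p₂⁻¹`, all other factors are in `H` (entries `true`).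
`yy`: `y = x_a(1) x_{-a}(κ)`, `(a, r) = -1`: `x_{-a}(κ)` commutes with `x_r(1)`, so `y x_r(1) y⁻¹ = x_a(1) x_r(1) x_a(1)⁻¹ = x_r(1) x_{a+r}(± 1)`. -/
def GSN_stmt : Prop := ∀ (n : ℕ) (C : Matrix (Fin n) (Fin n) ℤ) [IsC C] (F : Type) [Field F],
  (∀ α, ip C α α = 2 → ∃ β, ip C β β = 2 ∧ ip C α β = -1) → ∀ (PL : List (List ((Fin n → ℤ) × Bool))) (A : List (Fin n → ℤ)) (t : F)
  (H : Subgroup (Lm C F ≃ₗ[F] Lm C F)), (∀ P ∈ PL, ∀ p ∈ P, ip C p.1 p.1 = 2) → (∀ P ∈ PL, prd C t P ∈ H) →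
  (∀ a ∈ A, ip C a a = 2 ∧ ∃ κ : F, XG C a 1 * XG C (-a) κ ∈ H) → ∀ r, Cgr C PL A r → ip C r r = 2 ∧ XG C r (1 : F) ∈ H

/-! ## C. Commutators for the type `-2` -/

/-- **GVA** (short-medium). uses: GXC. `y = x_a(1) x_{-a}(κ)` on `V = {x_c(p) x_{a+c}(q)}`, `(a, c) = -1`. `ε = sg C a c`, `ε' = sg C (-a) (a + c) = sg C a (a + c) = -ε` (`sg_self`). GXC: `x_{-a}(κ) x_{a+c}(q) x_{-a}(κ)⁻¹ = x_{a+c}(q) x_c(ε' κ q)`, it commutes with `x_c`; `x_a(1) x_c(p) x_a(1)⁻¹ = x_c(p) x_{a+c}(ε p)`, it commutes with `x_{a+c}`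
(`(a, a+c) = 1`, `(c, a+c) = 1`). So `y x_c(p) x_{a+c}(q) y⁻¹ = x_c(p') x_{a+c}(q + ε p')`, `p' = p + ε' κ q`: `P = ε' κ q`, `Q = ε (p + P)`. So `q = ε' P / κ`, `p = ε Q - P`. -/
def GVA_stmt : Prop := ∀ (n : ℕ) (C : Matrix (Fin n) (Fin n) ℤ) [IsC C] (F : Type) [Field F],
  (∀ α, ip C α α = 2 → ∃ β, ip C β β = 2 ∧ ip C α β = -1) → ∀ a c : Fin n → ℤ, ip C a a = 2 → ip C c c = 2 → ip C a c = -1 →
  ∀ κ : F, κ ≠ 0 → (∀ P Q : F, ∃ p q : F, (P = 0 → q = 0) ∧ (Q = 0 → p = -P) ∧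
    (XG C a 1 * XG C (-a) κ) * (XG C c p * XG C (a + c) q) * (XG C a 1 * XG C (-a) κ)⁻¹ * (XG C c p * XG C (a + c) q)⁻¹ = XG C c P * XG C (a + c) Q)

/-- **GYB** (short-medium). uses: GXC, GVA. `d = f - a`, `(a, d) = -1`, `(c, d) = 0`. GVA for `c` with `(P, Q) = (s', 0)`: `u = x_c(-s') x_{a+c}(q)`, `[y, u] = x_c(s')`; GVA for `d` with `(0, s)`: `u' = x_d(p')`, `[y, u'] = x_f(s)`. `[y, u u'] = (y u y⁻¹) [y, u'] u⁻¹ = x_c(s') u x_f(s) u⁻¹`. `(a+c, f) = 0`, `(c, f) = -1`: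
`u x_f(s) u⁻¹ = x_c(-s') x_f(s) x_c(s')`. So `[y, u u'] = x_f(s) x_c(s')`. -/
def GYB_stmt : Prop := ∀ (n : ℕ) (C : Matrix (Fin n) (Fin n) ℤ) [IsC C] (F : Type) [Field F],
  (∀ α, ip C α α = 2 → ∃ β, ip C β β = 2 ∧ ip C α β = -1) → ∀ a c f : Fin n → ℤ, ip C a a = 2 → ip C c c = 2 → ip C f f = 2 →
  ip C a c = -1 → ip C a f = 1 → ip C f c = -1 → ∀ κ s s' : F, κ ≠ 0 → ∃ p q p' : F,
    (XG C a 1 * XG C (-a) κ) * (XG C c p * XG C (a + c) q * XG C (f - a) p') * (XG C a 1 * XG C (-a) κ)⁻¹ *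
      (XG C c p * XG C (a + c) q * XG C (f - a) p')⁻¹ = XG C f s * XG C c s'

/-- **GYC** (short-medium). uses: GXC, GVA, GYB. All products `OkP` are commutators `[y, h]`. `G = []`: GYB. `G = [(g, b₃)]`: let `g' = g` or `g - a` be the one of degree `-1`; GVA for `g'` with `(P, Q) = (s'', 0)` or `(0, s'')`: `u₂ = x_{g'}(p) x_{a+g'}(q)`, `[y, u₂] = x_g(s'')`. GYB: `u₁ = x_c(..) x_{a+c}(..) x_{f-a}(..)`.
`g'` and `g' + a` have products `≥ 0` with `c`, `a + c`, `f - a` and `f` (`(g', c) = (g', f - a) = 1`, `(a, g') = -1`, `(a, c) = (a, f-a) = -1`), so all factors of `u₂` commute with `u₁` and with `x_f`, `x_c`: `[y, u₁ u₂] = [y, u₁] u₁ [y, u₂] u₁⁻¹ = [y, u₁] [y, u₂]`. -/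
def GYC_stmt : Prop := ∀ (n : ℕ) (C : Matrix (Fin n) (Fin n) ℤ) [IsC C] (F : Type) [Field F],
  (∀ α, ip C α α = 2 → ∃ β, ip C β β = 2 ∧ ip C α β = -1) → ∀ a : Fin n → ℤ, ip C a a = 2 → ∀ κ t : F, κ ≠ 0 → ∀ l, OkP C a l →
  (∀ p ∈ l, ip C p.1 p.1 = 2) ∧ ∃ h ∈ GE C F, (XG C a 1 * XG C (-a) κ) * h * (XG C a 1 * XG C (-a) κ)⁻¹ * h⁻¹ = prd C t l

/-! ## D. Assembly -/

/-- **GF0** (medium). uses: GXC, GCJ, GGN, GSN. Types `0`, `-1`. `F` is finite: `t ≠ 0` such that every `u ≠ 0` is a power of `t` (`IsCyclic Fˣ`). `CT`: `y = g h`, `IsX a 1 g`, `IsX b 1 h`, `Tp θ a b m`, `fm a b = 0`. For roots `u, v` with `(u, v) = m` and `s, s' ≠ 0`: `Tp θ (s E u) (s' E v) m` (`k_TPR`, `f_TPF` scalars), `fm = 0` (`f_TPF`: `≠ 0` iff `m = -2`), so by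
`k_CNJ` there is `k ∈ GE` with `k a = s E u`, `k b = s' E v`, `k y k⁻¹ = x_u(s) x_v(s')` (`f_EXF` conjugation; `x_{s E u}(1) = x_u(s)`). The four pairs of `Ct0` with `s = s' = 1`, the last with `1, t`: `g : Fin 5 → EG`, `g i y (g i)⁻¹ = prd C t P_i` (`P_i` the `i`-th product). `H` = the image of the closure in `GE`
(`Subgroup.map (GE C F).subtype`); GSN, GGN (1): all `x_α(1) ∈ H`; `x_v(t) = x_u(1)⁻¹ prd ∈ H`; GGN (2): `GE ≤ H`, so the closure is `⊤`. -/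
def GF0_stmt : Prop := ∀ (n : ℕ) (C : Matrix (Fin n) (Fin n) ℤ) [IsC C] (F : Type) [Field F] [Finite F] (j0 : Fin n) (θ : Fin n → ℤ) (δ : Fin 5 → Fin n),
  IsE C j0 θ δ → ∀ m : ℤ, (m = 0 ∨ m = -1) → Ct0 C m → ∀ y : EG C F, CT C θ m 0 (y : Lm C F ≃ₗ[F] Lm C F) →
  ∃ g : Fin 5 → EG C F, Subgroup.closure (Set.range fun i => g i * y * (g i)⁻¹) = ⊤

/-- **GF2** (medium). uses: GXC, GCJ, GGN, GSN, GYC. Type `-2`. As GF0; `k_CNJ`: `k a = E θ`, `k b = κ E(-θ)`, `κ = σ` or `± σ` with `fm = σ` (`fm_E_E`: `fm (E θ) (κ E (-θ)) = κ`, so `κ = σ ≠ 0`): `Y = k y k⁻¹ = x_θ(1) x_{-θ}(σ)`. GYC for the four products `P_i` of `Ct2 C θ`: `h_i ∈ GE` with `Y (h_i Y⁻¹ h_i⁻¹) = prd C t P_i`. The five conjugates: `k y k⁻¹ = Y`,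
`h_i Y h_i⁻¹`. They generate `H` with `Y ∈ H`, `prd C t P_i = Y (h_i Y h_i⁻¹)⁻¹ ∈ H`. GSN with `A = [θ]`, GGN (1), then `x_v(t) ∈ H` (all other factors of its product are in `H`), GGN (2). -/
def GF2_stmt : Prop := ∀ (n : ℕ) (C : Matrix (Fin n) (Fin n) ℤ) [IsC C] (F : Type) [Field F] [Finite F] (j0 : Fin n) (θ : Fin n → ℤ) (δ : Fin 5 → Fin n),
  IsE C j0 θ δ → Ct2 C θ → ∀ (σ : F) (y : EG C F), σ ≠ 0 → CT C θ (-2) σ (y : Lm C F ≃ₗ[F] Lm C F) →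
  ∃ g : Fin 5 → EG C F, Subgroup.closure (Set.range fun i => g i * y * (g i)⁻¹) = ⊤

/-- **GGA** (short-medium; groups). `y = x(t) t⁻¹`. (1) `conj (g y g⁻¹) = (conj g x (conj g)⁻¹) (conj (g t) x (conj (g t))⁻¹)⁻¹` (`T11GR2_conj` in `Pool/Agent/helper64/EXC/T11GR2.lean`, imported). `h (i) = g i`, `h (i + 5) = g i * t` (`Fin.append` or `Fin.addCases`). So the closure on the right contains the image under `conj` of the closure of the `g i y (g i)⁻¹`, which is everything.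
(2) `r` a prime which divides `|G|`: an element `z` of order `r` (Cauchy: `exists_prime_orderOf_dvd_card`); `k_GR2` with `k = 5`; `(conj z)^m = 1`: `z^m` is central, so `z^m = 1`, `r ∣ m`. -/
def GGA_stmt : Prop := ∀ (G : Type) [Group G] [Finite G] (x : MulAut G) (t : G) (g : Fin 5 → G),
  Subgroup.closure (Set.range fun i => g i * (x t * t⁻¹) * (g i)⁻¹) = ⊤ →
  (∃ h : Fin 10 → G, (MulAut.conj : G →* MulAut G).range ≤ Subgroup.closure (Set.range fun i => MulAut.conj (h i) * x * (MulAut.conj (h i))⁻¹)) ∧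
  ((∀ z : G, (∀ g, z * g = g * z) → z = 1) → ∀ r : ℕ, r.Prime → r ∣ Nat.card G → 10 ∈ Pool.Agent.GS.CSet r x)

/-- **GFN** (short). uses: GF0, GF2, GGA. `f_ARA` (`RA C x` for every `x`), `k_YCL`: `t`, `m`, `σ`, `CT C θ m σ (x t * t⁻¹)`, `σ ≠ 0 ↔ m = -2`; GF0 or GF2 for `y = x t * t⁻¹`; GGA (the centre is trivial: `f_FIX`; `EG C F` is finite: it is a group of permutations of a finite set). -/
def GFN_stmt : Prop := ∀ (n : ℕ) (C : Matrix (Fin n) (Fin n) ℤ) [IsC C] (F : Type) [Field F] [Finite F] (j0 : Fin n) (θ : Fin n → ℤ) (δ : Fin 5 → Fin n),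
  IsE C j0 θ δ → Ct0 C 0 → Ct0 C (-1) → Ct2 C θ → ∀ x : MulAut (EG C F), x ≠ 1 →
  (∃ h : Fin 10 → EG C F, (MulAut.conj : EG C F →* MulAut (EG C F)).range ≤
    Subgroup.closure (Set.range fun i => MulAut.conj (h i) * x * (MulAut.conj (h i))⁻¹)) ∧
  ∀ r : ℕ, r.Prime → r ∣ Nat.card (EG C F) → 10 ∈ Pool.Agent.GS.CSet r x

end Pool.Agent.EXC
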